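import Pool.Agent.Q270.EB.TI

/-!
The sequence form of the theorem on arbitrary companions (after `Pool.Agent.Q270.EB.seqB`), for functions
`f` with `f' (p m) = f m` for another function `f'`: only the self-correlations of `f'` are needed.
-/

set_option autoImplicit false

namespace Pool.Agent.Run7.h348.EE

open Finset Filter Pool.Agent.Q270.EA Pool.Agent.Q270.EB

theorem seqC (hU : S_UNIF) (k : ℕ) (hk : 1 ≤ k) (X : ℕ → ℕ) (hX : Tendsto X atTop atTop)
    (w : ℕ → ℕ) (hw : Tendsto w atTop atTop) (f f' : ℕ → ℕ → ℂ) (hf : ∀ i n, ‖f i n‖ ≤ 1)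
    (hf' : ∀ i n, ‖f' i n‖ ≤ 1)
    (hd : ∀ i p, p.Prime → p ≤ w i → ∀ m, 1 ≤ m → ¬ p ∣ m → f' i (p * m) = f i m)
    (g : Fin k → ℕ → ℕ → ℂ) (hg : ∀ j i, BM (g j i)) (G H c : Fin k → ℕ → ℕ → ℂ)
    (hG : ∀ j i n, ‖G j i n‖ ≤ 1) (hH : ∀ j i n, ‖H j i n‖ ≤ 1) (hc : ∀ j i p, ‖c j i p‖ = 1)
    (hrel : ∀ j i p, p.Prime → p ≤ w i → ∀ m, 1 ≤ m → ¬ p ∣ m →
      H j i (p * m) = c j i p * G j i m)
    (a : Fin (k + 1) → ℤ) (ha : Function.Injective a)
    (hself : ∀ t : Fin k → ℤ, ND t → Tendsto (fun i => AS (X i)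
      (fun n : ℕ => CU k t (fun x => f' i x.toNat) n)) atTop (nhds 0))
    (ε : ℝ) (hε : 0 < ε) : ¬ ∀ i, ε ≤ AS (X i) (cor a (f i) (fun j n => g j i n * G j i n)) := by
  classical
  intro hcon
  have hcon' : ∀ i, ∃ g' : Fin k → ℕ → ℂ, (∀ j, BM (g' j)) ∧ (∀ j n, 1 ≤ n → ‖g' j n‖ = 1) ∧
      ε ≤ AS (X i) (cor a (f i) (fun j n => g' j n * G j i n)) := fun i => by
    obtain ⟨g', h1, h2, h3⟩ := red a (X i) (f i) (fun j => g j i) (fun j => G j i)
      (fun j => hg j i)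
    exact ⟨g', h1, h2, (hcon i).trans h3⟩
  choose u hu huu huε using hcon'
  obtain ⟨M, hS, hν, hdil, hlow, hlim⟩ := Pool.Agent.Q239.EA.t_SY3 X hX
  obtain ⟨E, hE1, hE2⟩ : ∃ E : Dil M (ℕ × ℕ), (∀ ω, E.lab ω = (ω.1, ω.2.1)) ∧
      ∀ p l, E.dl p l = (l.1, l.2 / p) :=
    ⟨{ lab := fun ω => (ω.1, ω.2.1)
       dl := fun p l => (l.1, l.2 / p)
       D := fun p ω => (ω.1, ω.2.1 / p, ω.2.2 / p)
       lab_S := fun ω => by rw [hS]
       lab_D := fun p ω => rfl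
       ν_D := fun p ω => by rw [hν, hν]
       dil := fun p hp φ hφ => by
         rw [hdil p hp φ hφ]
         congr 1
         funext ω
         rw [hν] }, fun _ => rfl, fun _ _ => rfl⟩
  obtain ⟨Ψ, hΨ⟩ : ∃ Ψ : ℕ → ℕ → ℂ, Ψ = fun (i : ℕ) =>
    cor a (f i) (fun j n => u i j n * G j i n) := ⟨_, rfl⟩
  have hug1 : ∀ i j n, ‖u i j n * G j i n‖ ≤ 1 := fun i j n => by
    rw [norm_mul]
    exact mul_le_one₀ ((hu i j).1 n) (norm_nonneg _) (hG j i n)
  have huh1 : ∀ i j n, ‖u i j n * H j i n‖ ≤ 1 := fun i j n => by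
    rw [norm_mul]
    exact mul_le_one₀ ((hu i j).1 n) (norm_nonneg _) (hH j i n)
  have hΨ1 : ∀ i n, ‖Ψ i n‖ ≤ 1 := fun i n => by
    rw [hΨ]
    exact norm_cor_le a _ _ (hf i) (hug1 i) n
  obtain ⟨tt, htt⟩ : ∃ tt : Fin (k + 1) → ℕ × ℕ → ℕ → ℂ, tt = Fin.cons (fun l n => f l.1 n)
    (fun j l n => u l.1 j n * G j l.1 n) := ⟨_, rfl⟩
  obtain ⟨ss, hss⟩ : ∃ ss : Fin (k + 1) → ℕ × ℕ → ℕ → ℂ, ss = Fin.cons (fun l n => f' l.1 n)
    (fun j l n => u l.1 j n * H j l.1 n) := ⟨_, rfl⟩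
  have htt0 : tt 0 = fun l n => f l.1 n := by rw [htt]; rfl
  have htts : ∀ j : Fin k, tt j.succ = fun l n => u l.1 j n * G j l.1 n := fun j => by rw [htt]; rfl
  have hss0 : ss 0 = fun l n => f' l.1 n := by rw [hss]; rfl
  have hsss : ∀ j : Fin k, ss j.succ = fun l n => u l.1 j n * H j l.1 n := fun j => by rw [hss]; rfl
  have htt1 : ∀ i l n, ‖tt i l n‖ ≤ 1 := by
    intro i l n
    refine Fin.cases ?_ (fun j => ?_) i
    · rw [htt0]; exact hf _ _
    · rw [htts]; exact hug1 _ _ _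
  have hss1 : ∀ i l n, ‖ss i l n‖ ≤ 1 := by
    intro i l n
    refine Fin.cases ?_ (fun j => ?_) i
    · rw [hss0]; exact hf' _ _
    · rw [hsss]; exact huh1 _ _ _
  obtain ⟨κ, hκ⟩ : ∃ κ : ℕ → ℕ × ℕ → ℂ, κ = fun p l => if p.Prime then
    ph (∑ m ∈ Icc 1 (l.2 / p), Ψ l.1 m) *
      ∏ j, starRingEnd ℂ (u l.1 j p * c j l.1 p) else 0 := ⟨_, rfl⟩
  have hmain := coreg hU M E k hk tt ss (fun l => ph (∑ m ∈ Icc 1 l.2, Ψ l.1 m)) a htt1 hss1
    (fun l => norm_ph _) ha (fun _ => True) 0 (fun S hS => by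
      refine le_of_eq (sum_eq_zero fun j hj => ?_)
      exfalso
      have h1 := (hS j hj).1
      have h2 : (0 : ℝ) ≤ ((PD j).card : ℝ) / 2 := by positivity
      simp only [not_true_eq_false, filter_false, card_empty, Nat.cast_zero] at h1
      linarith) κ (by
      intro p l
      rw [hκ]
      dsimp only
      split_ifs with h
      · rw [norm_mul, norm_prod]
        have h1 : ∏ j, ‖starRingEnd ℂ (u l.1 j p * c j l.1 p)‖ ≤ 1 :=
          prod_le_one (fun _ _ => norm_nonneg _) fun j _ => by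
            rw [RCLike.norm_conj, norm_mul, hc, mul_one]; exact (hu l.1 j).1 p
        have h3 := norm_ph (∑ m ∈ Icc 1 (l.2 / p), Ψ l.1 m)
        have h4 : ‖ph (∑ m ∈ Icc 1 (l.2 / p), Ψ l.1 m)‖ *
            ∏ j, ‖starRingEnd ℂ (u l.1 j p * c j l.1 p)‖ ≤ 1 * 1 := by
          gcongr
        linarith
      · simp) (fun p l => w l.1 < p) (by
      intro p hp hgp
      refine hlim (fun ω => if w (E.lab ω).1 < p then (1 : ℝ) else 0) ⟨1, fun ω => by
        dsimp only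
        split_ifs <;> simp⟩ 0 ?_
      refine tendsto_const_nhds.congr' ?_
      filter_upwards [hw.eventually_ge_atTop p, hX.eventually_ge_atTop 1] with i hi hXi
      have h1 : ∀ N n, (if w (E.lab (i, N, n)).1 < p then (1 : ℝ) else 0) = 0 := fun N n => by
        rw [hE1]
        dsimp only
        rw [if_neg (by omega)]
      simp only [h1]
      exact (EX_const _ hXi 0).symm) (by
      intro p hp hgp l hl m hm
      have hpw : p ≤ w l.1 := by omega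
      rw [Fin.prod_univ_succ, Fin.prod_univ_succ, htt0, hss0, hE2, hκ]
      dsimp only
      rw [if_pos hp]
      have h1 : ∀ j : Fin k, tt j.succ (l.1, l.2 / p) (m j.succ) =
          starRingEnd ℂ (u l.1 j p * c j l.1 p) * ss j.succ l (p * m j.succ) := by
        intro j
        rw [htts, hsss]
        dsimp only
        rw [hrel j l.1 p hp hpw _ (hm _).1 (hm _).2, (hu l.1 j).2.2 p _
          ((Nat.Prime.coprime_iff_not_dvd hp).2 (hm _).2)]
        have h2 : starRingEnd ℂ (u l.1 j p * c j l.1 p) * (u l.1 j p * c j l.1 p) = 1 := by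
          rw [mul_comm, Complex.mul_conj, Complex.normSq_eq_norm_sq, norm_mul, hc,
            huu l.1 j p hp.one_le]
          norm_num
        linear_combination (-(u l.1 j (m j.succ) * G j l.1 (m j.succ))) * h2
      rw [prod_congr rfl fun j _ => h1 j, prod_mul_distrib, hd l.1 p hp hpw _ (hm 0).1 (hm 0).2]
      ring) ?_
  · have h1 : (mc M (fun ω => ph (∑ m ∈ Icc 1 (E.lab ω).2, Ψ (E.lab ω).1 m) *
        ∏ i, gp E (tt i) ω (a i))).re =
        M.m (fun ω : ℕ × ℕ × ℕ => (ph (∑ m ∈ Icc 1 ω.2.1, Ψ ω.1 m) * Ψ ω.1 ω.2.2).re) := by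
      show M.m _ = M.m _
      congr 1
      funext ω
      dsimp only
      rw [Fin.prod_univ_succ]
      have h2 : ∀ j : Fin k, gp E (tt j.succ) ω (a j.succ) =
          u ω.1 j ((ω.2.2 + a j.succ : ℤ).toNat) * G j ω.1 ((ω.2.2 + a j.succ : ℤ).toNat) := by
        intro j
        unfold gp
        rw [htts, hE1, hν]
      rw [prod_congr rfl fun j _ => h2 j]
      have h3 : gp E (tt 0) ω (a 0) = f ω.1 ((ω.2.2 + a 0 : ℤ).toNat) := by
        unfold gp
        rw [htt0, hE1, hν]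
      rw [h3, hE1]
      dsimp only
      have h4 : Ψ ω.1 ω.2.2 = f ω.1 ((ω.2.2 + a 0 : ℤ).toNat) *
          ∏ j, (u ω.1 j ((ω.2.2 + a j.succ : ℤ).toNat) *
            G j ω.1 ((ω.2.2 + a j.succ : ℤ).toNat)) := by
        rw [hΨ]
        rfl
      rw [h4]
    rw [hmain, Complex.zero_re] at h1
    have h2 := hlow (fun ω : ℕ × ℕ × ℕ => (ph (∑ m ∈ Icc 1 ω.2.1, Ψ ω.1 m) * Ψ ω.1 ω.2.2).re)
      ⟨1, fun ω => by
        refine (Complex.abs_re_le_norm _).trans ?_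
        rw [norm_mul]
        exact mul_le_one₀ (norm_ph _) (norm_nonneg _) (hΨ1 _ _)⟩ ε (fun i => by
        have h3 := EX_ph (X i) (Ψ i)
        dsimp only
        rw [h3, hΨ]
        exact huε i)
    rw [← h1] at h2
    linarith
  · -- the self-correlations
    intro κ₀ hκ₀ r hr
    obtain ⟨Φ, hΦ⟩ : ∃ Φ : ℕ → ℕ → ℂ, Φ = fun i (n : ℕ) => CU k r (fun x => f' i x.toNat) n :=
      ⟨_, rfl⟩
    have hΦ1 : ∀ i n, ‖Φ i n‖ ≤ 1 := fun i n => by
      rw [hΦ]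
      exact norm_CU_le k r _ (fun x => hf' i _) _
    have h1 : (fun ω => κ₀ (E.lab ω) * CU k r (gp E (ss 0) ω) 0) =
        fun ω : ℕ × ℕ × ℕ => κ₀ (ω.1, ω.2.1) * Φ ω.1 ω.2.2 := by
      funext ω
      rw [hE1, hΦ]
      congr 1
      unfold CU gp
      refine prod_congr rfl fun s _ => ?_
      rw [hν, zero_add, hss0, hE1]
    rw [h1]
    have h0 : Tendsto (fun i => AS (X i) (Φ i)) atTop (nhds 0) := by
      have := hself r hr
      rw [hΦ]
      exact this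
    have hb : ∀ ω : ℕ × ℕ × ℕ, ‖κ₀ (ω.1, ω.2.1) * Φ ω.1 ω.2.2‖ ≤ 1 := fun ω => by
      rw [norm_mul]
      exact mul_le_one₀ (hκ₀ _) (norm_nonneg _) (hΦ1 _ _)
    apply Complex.ext
    · refine hlim _ ⟨1, fun ω => (Complex.abs_re_le_norm _).trans (hb ω)⟩ 0 ?_
      exact squeeze_zero_norm (fun i => (EX_le (X i) (fun N => κ₀ (i, N)) (fun N => hκ₀ _)
        (Φ i)).1) h0
    · refine hlim _ ⟨1, fun ω => (Complex.abs_im_le_norm _).trans (hb ω)⟩ 0 ?_
      exact squeeze_zero_norm (fun i => (EX_le (X i) (fun N => κ₀ (i, N)) (fun N => hκ₀ _)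
        (Φ i)).2) h0

end Pool.Agent.Run7.h348.EE
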