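import Pool.Agent.Run7.h348.EE.Path
import Pool.Agent.Run7.h348.EE.SeqC

/-!
Centred functions of the number of prime factors up to `W` and of the `(W, y]`-part have vanishing
correlations along cubes.
-/

set_option autoImplicit false

namespace Pool.Agent.Run7.h348.EE

open Finset Filter Pool.Agent.Q270.EA Pool.Agent.Q270.EB
open Pool.Agent.W208.TL (sm PP lf)
open Pool.Agent.W883.TL (Om)

/-- the mean over `1 ≤ n ≤ N` -/
noncomputable def EN (N : ℕ) (φ : ℕ → ℂ) : ℂ := (1 / (N : ℂ)) * ∑ n ∈ Icc 1 N, φ n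

lemma EN_sub (N : ℕ) (φ ψ : ℕ → ℂ) : EN N (fun n => φ n - ψ n) = EN N φ - EN N ψ := by
  unfold EN
  rw [sum_sub_distrib, mul_sub]

lemma EN_add (N : ℕ) (φ ψ : ℕ → ℂ) : EN N (fun n => φ n + ψ n) = EN N φ + EN N ψ := by
  unfold EN
  rw [sum_add_distrib, mul_add]

lemma EN_smul (N : ℕ) (c : ℂ) (φ : ℕ → ℂ) : EN N (fun n => c * φ n) = c * EN N φ := by
  unfold EN
  rw [← mul_sum]
  ring

lemma EN_le (N : ℕ) (φ : ℕ → ℂ) (B : ℝ) (hB : 0 ≤ B) (h : ∀ n, 1 ≤ n → n ≤ N → ‖φ n‖ ≤ B) :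
    ‖EN N φ‖ ≤ B := by
  unfold EN
  rcases Nat.eq_zero_or_pos N with h0 | h0
  · subst h0; simpa using hB
  have hN : (0 : ℝ) < N := by exact_mod_cast h0
  rw [norm_mul, norm_div, norm_one, Complex.norm_natCast, one_div, inv_mul_le_iff₀ hN]
  refine (norm_sum_le _ _).trans ((sum_le_sum fun n hn =>
    h n (mem_Icc.1 hn).1 (mem_Icc.1 hn).2).trans (le_of_eq ?_))
  rw [sum_const, Nat.card_Icc, nsmul_eq_mul, Nat.add_sub_cancel]

lemma EN_norm (N : ℕ) (φ : ℕ → ℂ) (h : ∀ n, ‖φ n‖ ≤ 1) : ‖EN N φ‖ ≤ 1 :=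
  EN_le N φ 1 zero_le_one fun n _ _ => h n

lemma EN_const (N : ℕ) (hN : 1 ≤ N) (c : ℂ) : EN N (fun _ => c) = c := by
  unfold EN
  have hNc : (N : ℂ) ≠ 0 := by exact_mod_cast (by omega : N ≠ 0)
  rw [sum_const, Nat.card_Icc, nsmul_eq_mul, Nat.add_sub_cancel]
  field_simp

lemma EN_Ioc (N : ℕ) (φ : ℕ → ℂ) : EN N φ = (∑ n ∈ Ioc 0 N, φ n) / (N : ℂ) := by
  unfold EN
  rw [Icc_Ioc]
  ring

lemma EN_shift (N : ℕ) (φ : ℕ → ℂ) (h : ∀ n, ‖φ n‖ ≤ 1) (s : ℕ) (ε : ℝ) (hs : 2 * (s : ℝ) ≤ ε * N)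
    (hN : 1 ≤ N) : ‖EN N (fun n => φ (n + s)) - EN N φ‖ ≤ ε := by
  have hN0 : (0 : ℝ) < N := by exact_mod_cast hN
  have h4 := Pool.Agent.W883.TL.shift φ h N s
  rw [EN_Ioc, EN_Ioc, ← sub_div, norm_div, Complex.norm_natCast, div_le_iff₀ hN0]
  exact h4.trans hs

/-- the mean over `n ≤ X` -/
noncomputable def mp (W y X : ℕ) (Φ : ℕ → ℕ → ℂ) : ℂ := EN X (pf W y Φ 0)

lemma mp_norm (W y X : ℕ) (Φ : ℕ → ℕ → ℂ) (h : ∀ l s, ‖Φ l s‖ ≤ 1) : ‖mp W y X Φ‖ ≤ 1 :=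
  EN_norm _ _ fun _ => h _ _

theorem one2 (ε : ℝ) (hε : 0 < ε) : ∃ A W0 : ℕ, 1 ≤ A ∧ 1 ≤ W0 ∧ ∀ W y : ℕ, W0 ≤ W → W ≤ y →
    ∃ M : (ℕ → ℕ → ℂ) → ℂ, ∀ X : ℕ, y ^ A ≤ X → ∀ Φ : ℕ → ℕ → ℂ, (∀ l s, ‖Φ l s‖ ≤ 1) →
      ∀ l : ℕ, l ≤ 1 → ‖EN X (pf W y Φ l) - M Φ‖ ≤ ε := by
  obtain ⟨A, W0, hA, hW0, H⟩ := corr2 1 le_rfl (fun _ => 1) (fun i j _ => Subsingleton.elim i j)
    (fun _ => by norm_num) (ε / 2) (by positivity)
  obtain ⟨B, hB⟩ := exists_nat_ge (4 / ε)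
  refine ⟨A, W0 + B, hA, by omega, fun W y hW hWy => ?_⟩
  obtain ⟨M, -, -, hM⟩ := H W y (by omega) hWy
  refine ⟨M, fun X hX Φ hΦ l hl => ?_⟩
  have h1 := hM X hX (fun _ => Φ) (fun _ => hΦ) (fun _ => l) (fun _ => hl)
  simp only [univ_unique, Fin.default_eq_zero, prod_singleton] at h1
  have e1 : ∀ n : ℕ, lf 1 1 n = n + 1 := fun n => by
    unfold lf
    push_cast
    rw [one_mul]
    exact Int.natAbs_natCast (n + 1)
  simp only [e1] at h1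
  rw [← EN_Ioc X (fun n => pf W y Φ l (n + 1))] at h1
  have hyX : y ≤ X := (Nat.le_self_pow (by omega) y).trans hX
  have h2 := EN_shift X (pf W y Φ l) (fun n => hΦ _ _) 1 (ε / 2) (by
    have e2 : 4 / ε ≤ X := hB.trans (by exact_mod_cast (by omega : B ≤ X))
    rw [div_le_iff₀ hε] at e2
    push_cast
    linarith) (by omega)
  have e3 : EN X (pf W y Φ l) - M Φ = (EN X (fun n => pf W y Φ l (n + 1)) - M Φ) -
      (EN X (fun n => pf W y Φ l (n + 1)) - EN X (pf W y Φ l)) := by ring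
  rw [e3]
  refine (norm_sub_le _ _).trans ?_
  linarith

/-- the means are nearly independent of the scale and of a shift of the argument -/
theorem mean_law2 (ε : ℝ) (hε : 0 < ε) : ∃ A W0 : ℕ, 1 ≤ A ∧ 1 ≤ W0 ∧ ∀ W y : ℕ, W0 ≤ W → W ≤ y →
    ∀ N X : ℕ, y ^ A ≤ N → y ^ A ≤ X → ∀ Φ : ℕ → ℕ → ℂ, (∀ l s, ‖Φ l s‖ ≤ 1) →
      ‖EN N (pf W y (fun l s => Φ (l - 1) s) 0) - mp W y X Φ‖ ≤ ε ∧
      ‖mp W y N Φ - mp W y X Φ‖ ≤ ε := by
  obtain ⟨A, W0, hA, hW0, H⟩ := one2 (ε / 2) (by positivity)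
  refine ⟨A, W0, hA, hW0, fun W y hW hWy N X hN hX Φ hΦ => ?_⟩
  obtain ⟨M, hM⟩ := H W y hW hWy
  constructor
  · have h1 := hM N hN (fun l s => Φ (l - 1) s) (fun _ _ => hΦ _ _) 0 (by omega)
    have h2 := hM X hX (fun l s => Φ (l - 1) s) (fun _ _ => hΦ _ _) 1 le_rfl
    have e : EN X (pf W y (fun l s => Φ (l - 1) s) 1) = mp W y X Φ := by
      unfold mp
      congr 1
    rw [e] at h2
    have e2 : EN N (pf W y (fun l s => Φ (l - 1) s) 0) - mp W y X Φ =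
        (EN N (pf W y (fun l s => Φ (l - 1) s) 0) - M (fun l s => Φ (l - 1) s)) -
        (mp W y X Φ - M (fun l s => Φ (l - 1) s)) := by ring
    rw [e2]
    exact (norm_sub_le _ _).trans (by linarith)
  · have h1 := hM N hN Φ hΦ 0 (by omega)
    have h2 := hM X hX Φ hΦ 0 (by omega)
    have e2 : mp W y N Φ - mp W y X Φ = (EN N (pf W y Φ 0) - M Φ) - (EN X (pf W y Φ 0) - M Φ) := by
      unfold mp
      ring
    rw [e2]
    exact (norm_sub_le _ _).trans (by linarith)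

/-- half of the centred function, with the argument diminished by one -/
noncomputable def zz (W y X : ℕ) (Φ : ℕ → ℕ → ℂ) (n : ℕ) : ℂ :=
  (1 / 2 : ℂ) * (Φ (Oy W n - 1) (sm W y n) - mp W y X Φ)

lemma half_norm {a b : ℂ} (ha : ‖a‖ ≤ 1) (hb : ‖b‖ ≤ 1) : ‖(1 / 2 : ℂ) * (a - b)‖ ≤ 1 := by
  rw [norm_mul]
  have h1 := norm_sub_le a b
  have h2 : ‖(1 / 2 : ℂ)‖ = 1 / 2 := by norm_num
  rw [h2]
  linarith

lemma zz_norm (W y X : ℕ) (Φ : ℕ → ℕ → ℂ) (hΦ : ∀ l s, ‖Φ l s‖ ≤ 1) (n : ℕ) : ‖zz W y X Φ n‖ ≤ 1 :=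
  half_norm (hΦ _ _) (mp_norm W y X Φ hΦ)

lemma ncj (b : ℕ) (z : ℂ) : ‖cj b z‖ = ‖z‖ := by
  unfold cj
  split_ifs
  · rfl
  · exact RCLike.norm_conj z

theorem cub2 (k : ℕ) (t : Fin k → ℤ) (ht : ND t) (ε : ℝ) (hε : 0 < ε) : ∃ A W0 : ℕ, 1 ≤ A ∧
    1 ≤ W0 ∧ ∀ W y : ℕ, W0 ≤ W → W ≤ y → ∀ N X : ℕ, y ^ A ≤ N → y ^ A ≤ X → ∀ Φ : ℕ → ℕ → ℂ,
      (∀ l s, ‖Φ l s‖ ≤ 1) →
      ‖(1 / (N : ℂ)) * ∑ n ∈ Icc 1 N, CU k t (fun x => zz W y X Φ x.toNat) n‖ ≤ ε := by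
  classical
  obtain ⟨J, hJ⟩ : ∃ J : ℕ, J = Fintype.card (Finset (Fin k)) := ⟨_, rfl⟩
  have hJ1 : 1 ≤ J := by rw [hJ]; exact Fintype.card_pos
  obtain ⟨e⟩ : Nonempty (Finset (Fin k) ≃ Fin J) := ⟨by rw [hJ]; exact Fintype.equivFin _⟩
  obtain ⟨T, hT⟩ : ∃ T : ℕ, T = ∑ i, (t i).natAbs := ⟨_, rfl⟩
  have hTt : ∀ s : Finset (Fin k), |∑ i ∈ s, t i| ≤ (T : ℤ) := by
    intro s
    rw [hT]
    push_cast
    refine (abs_sum_le_sum_abs _ _).trans ?_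
    exact sum_le_sum_of_subset_of_nonneg (subset_univ _) fun _ _ _ => abs_nonneg _
  obtain ⟨h, hh⟩ : ∃ h : Fin J → ℕ, h = fun j => ((T : ℤ) + 1 + ∑ i ∈ e.symm j, t i).toNat :=
    ⟨_, rfl⟩
  have hhZ : ∀ j, ((h j : ℕ) : ℤ) = (T : ℤ) + 1 + ∑ i ∈ e.symm j, t i := by
    intro j
    rw [hh]
    have := (abs_le.1 (hTt (e.symm j))).1
    exact Int.toNat_of_nonneg (by linarith)
  have hinj : Function.Injective (fun j => (h j : ℤ)) := by
    intro i j hij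
    have h1 : ((h i : ℕ) : ℤ) = h j := hij
    rw [hhZ, hhZ] at h1
    have h2 : e.symm i = e.symm j := ht (by
      show ∑ i ∈ e.symm i, t i = ∑ i ∈ e.symm j, t i
      linarith)
    exact e.symm.injective h2
  have hne : ∀ j, (h j : ℤ) ≠ 0 := by
    intro j hj
    rw [hhZ] at hj
    have := (abs_le.1 (hTt (e.symm j))).1
    linarith
  have hh2T : ∀ j, h j ≤ 2 * T + 1 := by
    intro j
    have h1 := hhZ j
    have := (abs_le.1 (hTt (e.symm j))).2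
    omega
  obtain ⟨η, hη⟩ : ∃ η : ℝ, η = ε / (2 * J + 10) := ⟨_, rfl⟩
  have hη0 : 0 < η := by rw [hη]; positivity
  have hηε : (2 * J + 10) * η = ε := by rw [hη]; field_simp
  obtain ⟨A1, w1, hA1, hw1, H⟩ := corr2 J hJ1 (fun j => (h j : ℤ)) hinj hne η hη0
  obtain ⟨A2, w2, hA2, hw2, H2⟩ := mean_law2 η hη0
  obtain ⟨B, hB⟩ := exists_nat_ge (2 * (2 * (T : ℝ) + 1) / η)
  refine ⟨max A1 A2, w1 + w2 + B, le_max_of_le_left hA1, by omega, ?_⟩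
  intro W y hW hWy N X hN hX Φ hΦ
  obtain ⟨M, hM1, hMo, hM⟩ := H W y (by omega) hWy
  have hyN : y ≤ N := (Nat.le_self_pow (by omega) y).trans hN
  have hN1 : 1 ≤ N := by omega
  have hpow : ∀ {a Y : ℕ}, a ≤ max A1 A2 → y ^ max A1 A2 ≤ Y → y ^ a ≤ Y := fun ha hY =>
    (Nat.pow_le_pow_right (by omega) ha).trans hY
  have hN1' := hpow (le_max_left _ _) hN
  obtain ⟨μ, hμ⟩ : ∃ μ : ℂ, μ = mp W y X Φ := ⟨_, rfl⟩
  have hμ1 : ‖μ‖ ≤ 1 := by rw [hμ]; exact mp_norm W y X Φ hΦ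
  have hshift : ∀ s : ℕ, s ≤ 2 * T + 1 → 2 * (s : ℝ) ≤ η * N := by
    intro s hs
    have e1 : 2 * (2 * (T : ℝ) + 1) / η ≤ N := hB.trans (by exact_mod_cast (by omega : B ≤ N))
    rw [div_le_iff₀ hη0] at e1
    have e2 : (s : ℝ) ≤ 2 * T + 1 := by exact_mod_cast hs
    linarith
  obtain ⟨G, hG⟩ : ∃ G : Fin J → ℕ → ℕ → ℂ, G = fun j l s =>
    cj (e.symm j).card ((1 / 2 : ℂ) * (Φ (l - 1) s - μ)) := ⟨_, rfl⟩
  have hG1 : ∀ j l s, ‖G j l s‖ ≤ 1 := fun j l s => by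
    rw [hG]
    dsimp only
    rw [ncj]
    exact half_norm (hΦ _ _) hμ1
  have hlf : ∀ (j : Fin J) (n : ℕ), lf 1 (h j : ℤ) n = n + h j := fun j n => by
    unfold lf
    push_cast
    rw [one_mul]
    exact Int.natAbs_natCast (n + h j)
  -- the factor of the empty set
  obtain ⟨j0, hj0⟩ : ∃ j0 : Fin J, j0 = e ∅ := ⟨_, rfl⟩
  have h2 : ‖M (G j0)‖ ≤ (J + 3) * η := by
    have m1 := hM N hN1' (fun j => if j = j0 then G j0 else fun _ _ => 1) (fun j l s => by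
      split_ifs
      · exact hG1 _ _ _
      · simp) (fun _ => 0) (fun _ => by omega)
    have m2 : ∀ n : ℕ, ∏ j, pf W y (if j = j0 then G j0 else fun _ _ => 1) 0 (lf 1 (h j : ℤ) n) =
        pf W y (G j0) 0 (n + h j0) := by
      intro n
      rw [← mul_prod_erase univ _ (mem_univ j0), if_pos rfl, hlf]
      rw [prod_eq_one fun j hj => ?_, mul_one]
      rw [if_neg (ne_of_mem_erase hj)]
      rfl
    have m3 : ∏ j, M (if j = j0 then G j0 else fun _ _ => 1) =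
        M (G j0) * M (fun _ _ => 1) ^ (J - 1) := by
      rw [← mul_prod_erase univ _ (mem_univ j0), if_pos rfl]
      congr 1
      rw [prod_congr rfl fun j hj => by rw [if_neg (ne_of_mem_erase hj)], prod_const,
        card_erase_of_mem (mem_univ _), card_univ, Fintype.card_fin]
    simp only [m2] at m1
    rw [m3, ← EN_Ioc N (fun n => pf W y (G j0) 0 (n + h j0))] at m1
    have m4 := EN_shift N (pf W y (G j0) 0) (fun n => hG1 _ _ _) (h j0) η (hshift _ (hh2T j0)) hN1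
    have m5 : ‖EN N (pf W y (G j0) 0)‖ ≤ η := by
      have e1 : ∀ n, pf W y (G j0) 0 n = (1 / 2 : ℂ) * (pf W y (fun l s => Φ (l - 1) s) 0 n - μ) := by
        intro n
        unfold pf
        rw [hG, hj0]
        dsimp only
        rw [e.symm_apply_apply, card_empty]
        unfold cj
        simp
      have e2 : EN N (pf W y (G j0) 0) = (1 / 2 : ℂ) *
          (EN N (pf W y (fun l s => Φ (l - 1) s) 0) - μ) := by
        have e3 : (pf W y (G j0) 0) = fun n => (1 / 2 : ℂ) *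
            (pf W y (fun l s => Φ (l - 1) s) 0 n - (fun _ => μ) n) := by
          funext n
          exact e1 n
        rw [e3, EN_smul, EN_sub, EN_const N hN1]
      have e4 := (H2 W y (by omega) hWy N X (hpow (le_max_right _ _) hN) (hpow (le_max_right _ _) hX)
        Φ hΦ).1
      rw [← hμ] at e4
      rw [e2, norm_mul]
      have e8 : ‖(1 / 2 : ℂ)‖ = 1 / 2 := by norm_num
      rw [e8]
      have := norm_nonneg (EN N (pf W y (fun l s => Φ (l - 1) s) 0) - μ)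
      linarith
    have m6 : ‖M (fun _ _ => 1) ^ (J - 1) - 1‖ ≤ J * η := by
      have e1 := prod_diff (range (J - 1)) (fun _ => M (fun _ _ => 1)) (fun _ => (1 : ℂ))
        (fun _ => hM1 _ fun _ _ => by simp) (fun _ => by simp)
      rw [prod_const, prod_const, one_pow, card_range, sum_const, card_range, nsmul_eq_mul] at e1
      refine e1.trans ?_
      have e2 : ((J - 1 : ℕ) : ℝ) ≤ J := by exact_mod_cast Nat.sub_le J 1
      gcongr
    have m7 : M (G j0) = EN N (pf W y (G j0) 0) + (EN N (fun n => pf W y (G j0) 0 (n + h j0)) -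
        EN N (pf W y (G j0) 0)) - (EN N (fun n => pf W y (G j0) 0 (n + h j0)) -
        M (G j0) * M (fun _ _ => 1) ^ (J - 1)) - M (G j0) * (M (fun _ _ => 1) ^ (J - 1) - 1) := by
      ring
    have m8 : ‖M (G j0) * (M (fun _ _ => 1) ^ (J - 1) - 1)‖ ≤ J * η := by
      rw [norm_mul]
      calc _ ≤ 1 * (J * η) := mul_le_mul (hM1 _ (hG1 j0)) m6 (norm_nonneg _) zero_le_one
        _ = _ := one_mul _
    rw [m7]
    refine (norm_sub_le _ _).trans ?_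
    refine (add_le_add ((norm_sub_le _ _).trans (add_le_add (norm_add_le _ _) le_rfl)) m8).trans ?_
    linarith
  -- the correlation
  obtain ⟨Ψ, hΨ⟩ : ∃ Ψ : ℕ → ℂ, Ψ = fun n : ℕ => CU k t (fun x => zz W y X Φ x.toNat) n := ⟨_, rfl⟩
  have hΨ1 : ∀ n, ‖Ψ n‖ ≤ 1 := fun n => by
    rw [hΨ]
    exact norm_CU_le k t _ (fun x => zz_norm W y X Φ hΦ _) _
  have h3 : ∀ n : ℕ, ∏ j, pf W y (G j) 0 (lf 1 (h j : ℤ) n) = Ψ (n + (T + 1)) := by
    intro n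
    rw [hΨ]
    unfold CU
    rw [← Equiv.prod_comp e]
    refine prod_congr rfl fun s _ => ?_
    rw [hlf]
    unfold pf
    rw [hG]
    dsimp only
    rw [e.symm_apply_apply]
    have e1 : ((((n + (T + 1) : ℕ) : ℤ) + ∑ i ∈ s, t i)).toNat = n + h (e s) := by
      have e2 : ((n + (T + 1) : ℕ) : ℤ) + ∑ i ∈ s, t i = ((n + h (e s) : ℕ) : ℤ) := by
        push_cast
        rw [hhZ, e.symm_apply_apply]
        ring
      rw [e2, Int.toNat_natCast]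
    rw [e1, hμ]
    rfl
  have h4 := hM N hN1' G hG1 (fun _ => 0) (fun _ => by omega)
  simp only [h3] at h4
  rw [← EN_Ioc N (fun n => Ψ (n + (T + 1)))] at h4
  have h5 := EN_shift N Ψ hΨ1 (T + 1) η (hshift _ (by omega)) hN1
  have h6 : ‖∏ j, M (G j)‖ ≤ (J + 3) * η := by
    rw [norm_prod, ← mul_prod_erase univ _ (mem_univ j0)]
    calc _ ≤ ((J + 3) * η) * 1 := mul_le_mul h2 (prod_le_one (fun _ _ => norm_nonneg _)
          fun j _ => hM1 _ (hG1 j)) (prod_nonneg fun _ _ => norm_nonneg _) (by positivity)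
      _ = _ := mul_one _
  have h8 : (1 / (N : ℂ)) * ∑ n ∈ Icc 1 N, CU k t (fun x => zz W y X Φ x.toNat) n = EN N Ψ := by
    rw [hΨ]
    rfl
  rw [h8]
  have h9 : EN N Ψ = (EN N (fun n => Ψ (n + (T + 1))) - ∏ j, M (G j)) + ∏ j, M (G j) -
      (EN N (fun n => Ψ (n + (T + 1))) - EN N Ψ) := by ring
  rw [h9]
  refine (norm_sub_le _ _).trans ((add_le_add (norm_add_le _ _) le_rfl).trans ?_)
  have h10 : (0 : ℝ) ≤ J * η := by positivity
  linarith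

end Pool.Agent.Run7.h348.EE
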