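import Pool.Agent.W208.TL.Omt2
import Pool.Agent.W208.TL.All
import Pool.Agent.W177.TL.SI
import Pool.Agent.Q270.EB.TI

/-!
The number of prime factors up to `y`.
-/

set_option autoImplicit false

namespace Pool.Agent.Run7.h348.EE

open Finset Filter
open Pool.Agent.W208.TL (sm)
open Pool.Agent.W883.TL (Om)

/-- number of prime factors `p ≤ y`, with multiplicity -/
noncomputable def Oy (y n : ℕ) : ℕ := Om (sm 0 y n)

lemma Icc_Ioc (X : ℕ) : Icc 1 X = Ioc 0 X := by
  ext n
  simp only [mem_Icc, mem_Ioc]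
  omega

end Pool.Agent.Run7.h348.EE
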