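import Pool.Agent.Run7.h348.EE.Law

/-!
Functions of the number of prime factors up to `W` and of the part composed of the primes in `(W, y]`:
law of the values at several shifts.
-/

set_option autoImplicit false

namespace Pool.Agent.Run7.h348.EE

open Finset Filter
open Pool.Agent.W208.TL (sm PP mu lf cav KF)
open Pool.Agent.W883.TL (Om)
open Pool.Agent.W177.TL (Law SS SS_nonneg omE om om_le om_nonneg summ E_abs)

lemma prod_diff {ι : Type*} [DecidableEq ι] (s : Finset ι) (a b : ι → ℂ) (ha : ∀ i, ‖a i‖ ≤ 1)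
    (hb : ∀ i, ‖b i‖ ≤ 1) : ‖∏ i ∈ s, a i - ∏ i ∈ s, b i‖ ≤ ∑ i ∈ s, ‖a i - b i‖ := by
  induction s using Finset.induction_on with
  | empty => simp
  | insert i s hi ih =>
    rw [prod_insert hi, prod_insert hi, sum_insert hi]
    have e : a i * ∏ i ∈ s, a i - b i * ∏ i ∈ s, b i =
        (a i - b i) * ∏ i ∈ s, a i + b i * (∏ i ∈ s, a i - ∏ i ∈ s, b i) := by ring
    rw [e]
    refine (norm_add_le _ _).trans ?_
    rw [norm_mul, norm_mul]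
    have h1 : ‖∏ i ∈ s, a i‖ ≤ 1 := by
      rw [norm_prod]
      exact prod_le_one (fun _ _ => norm_nonneg _) fun _ _ => ha _
    have h2 : ‖a i - b i‖ * ‖∏ i ∈ s, a i‖ ≤ ‖a i - b i‖ * 1 := by gcongr
    have h3 : ‖b i‖ * ‖∏ i ∈ s, a i - ∏ i ∈ s, b i‖ ≤ 1 * ‖∏ i ∈ s, a i - ∏ i ∈ s, b i‖ := by
      gcongr
      exact hb i
    linarith

lemma sm_fact (a b n l : ℕ) : (sm a b n).factorization l = if l ∈ PP a b then n.factorization l else 0 := by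
  unfold sm
  rw [Nat.factorization_prod (fun l hl => pow_ne_zero _ (Pool.Agent.W208.TL.mem_PP.1 hl).2.ne_zero)]
  simp only [Finsupp.coe_finsetSum, Finset.sum_apply, Nat.factorization_pow, Finsupp.coe_smul,
    Pi.smul_apply, smul_eq_mul]
  split_ifs with hp
  · rw [sum_eq_single_of_mem l hp]
    · rw [Nat.Prime.factorization_self (Pool.Agent.W208.TL.mem_PP.1 hp).2, mul_one]
    · intro m hm hne
      rw [Nat.Prime.factorization (Pool.Agent.W208.TL.mem_PP.1 hm).2, Finsupp.single_apply,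
        if_neg hne, mul_zero]
  · refine sum_eq_zero fun m hm => ?_
    have hne : m ≠ l := fun h => hp (h ▸ hm)
    rw [Nat.Prime.factorization (Pool.Agent.W208.TL.mem_PP.1 hm).2, Finsupp.single_apply,
      if_neg hne, mul_zero]

lemma Oy_eq (W n : ℕ) : Oy W n = ∑ l ∈ PP 0 W, n.factorization l := Pool.Agent.W883.TL.Om_sm 0 W n

lemma PP_sub {a b a' b' : ℕ} (h1 : a' ≤ a) (h2 : b ≤ b') {l : ℕ} (h : l ∈ PP a b) : l ∈ PP a' b' := by
  rw [Pool.Agent.W208.TL.mem_PP] at h ⊢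
  exact ⟨⟨by omega, by omega⟩, h.2⟩

lemma Oy_sm {W y : ℕ} (h : W ≤ y) (n : ℕ) : Oy W (sm 0 y n) = Oy W n := by
  rw [Oy_eq, Oy_eq]
  exact sum_congr rfl fun l hl => by rw [sm_fact, if_pos (PP_sub le_rfl h hl)]

lemma sm_sm (W y n : ℕ) : sm W y (sm 0 y n) = sm W y n := by
  unfold sm
  refine prod_congr rfl fun l hl => ?_
  have := sm_fact 0 y n l
  unfold sm at this
  rw [this, if_pos (PP_sub (Nat.zero_le _) le_rfl hl)]

/-- a function of the number of prime factors up to `W` and of the part composed of the primes in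
`(W, y]`; the number is increased by `i` -/
noncomputable def pf (W y : ℕ) (Φ : ℕ → ℕ → ℂ) (i n : ℕ) : ℂ := Φ (Oy W n + i) (sm W y n)

lemma pf_sm {W y : ℕ} (h : W ≤ y) (Φ : ℕ → ℕ → ℂ) (i n : ℕ) : pf W y Φ i (sm 0 y n) = pf W y Φ i n := by
  unfold pf
  rw [Oy_sm h, sm_sm]

lemma Oy_mul {y p m : ℕ} (hp : p.Prime) (hpy : p ≤ y) (hm : 1 ≤ m) :
    Oy y (p * m) = Oy y m + 1 := by
  rw [Oy_eq, Oy_eq]
  have h1 : ∀ l ∈ PP 0 y, (p * m).factorization l = m.factorization l + if p = l then 1 else 0 := by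
    intro l hl
    rw [Nat.factorization_mul hp.ne_zero (by omega), Finsupp.add_apply, hp.factorization,
      Finsupp.single_apply, add_comm]
  rw [sum_congr rfl h1, sum_add_distrib, sum_ite_eq, if_pos]
  exact Pool.Agent.W208.TL.mem_PP.2 ⟨⟨hp.pos, hpy⟩, hp⟩

lemma sm_mul {W y A m : ℕ} (hA : 1 ≤ A) (hAW : A ≤ W) (hm : 1 ≤ m) : sm W y (A * m) = sm W y m := by
  unfold sm
  refine prod_congr rfl fun l hl => ?_
  have h1 := Pool.Agent.W208.TL.mem_PP.1 hl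
  rw [Nat.factorization_mul (by omega) (by omega), Finsupp.add_apply,
    Nat.factorization_eq_zero_of_lt (by omega), zero_add]

lemma pf_mul {W y p m : ℕ} (Φ : ℕ → ℕ → ℂ) (i : ℕ) (hp : p.Prime) (hpW : p ≤ W) (hm : 1 ≤ m) :
    pf W y Φ i (p * m) = pf W y Φ (i + 1) m := by
  unfold pf
  rw [Oy_mul hp hpW hm, sm_mul hp.one_lt.le hpW hm]
  congr 1
  omega

lemma pf_dvd {W y A Q d : ℕ} (Φ : ℕ → ℕ → ℂ) (i : ℕ) (hA : A ∣ Q) (hQ : 1 ≤ Q) (hQW : Q ≤ W)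
    (hd : 1 ≤ d) : pf W y Φ i (A * d) = pf W y Φ (i + Om A) d := by
  have hA0 : A ≠ 0 := fun h => by
    rw [h] at hA
    have := Nat.eq_zero_of_zero_dvd hA
    omega
  have hAW : A ≤ W := (Nat.le_of_dvd (by omega) hA).trans hQW
  unfold pf
  rw [sm_mul (by omega) hAW hd]
  congr 1
  rw [Oy_eq, Oy_eq, Pool.Agent.W883.TL.Om_full hA0 hAW]
  have h1 : ∀ l ∈ PP 0 W, (A * d).factorization l = A.factorization l + d.factorization l := by
    intro l hl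
    rw [Nat.factorization_mul hA0 (by omega), Finsupp.add_apply]
  rw [sum_congr rfl h1, sum_add_distrib]
  ring

lemma pf_norm {Φ : ℕ → ℕ → ℂ} (hΦ : ∀ l s, ‖Φ l s‖ ≤ 1) (W y i n : ℕ) : ‖pf W y Φ i n‖ ≤ 1 := hΦ _ _

/-- a law for fewer primes -/
lemma law_sub {s t : Finset ℕ} {ν : ℕ → ℝ} (h : Law s ν) (hts : t ⊆ s) : Law t ν :=
  ⟨fun p hp => h.prime p (hts hp), h.nn, h.zero, h.sum, fun p hp => h.shift p (hts hp)⟩

theorem stepF {s : Finset ℕ} {ν : ℕ → ℝ} (h : Law s ν) (hS : 0 < SS s) (F : ℕ → ℕ → ℂ)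
    (hF : ∀ i d, ‖F i d‖ ≤ 1) (hrel : ∀ p ∈ s, ∀ d, 1 ≤ d → ∀ i, F i (p * d) = F (i + 1) d) (i : ℕ) :
    ‖∑' d, ν d • F (i + 1) d - ∑' d, ν d • F i d‖ ≤ 1 / √(SS s) := by
  have hq : 0 < √(SS s) := Real.sqrt_pos.mpr hS
  have hqq : √(SS s) * √(SS s) = SS s := Real.mul_self_sqrt hS.le
  have h1 := omE h (F := F i) (B := 1) (hF i)
  have h2 : ∀ p ∈ s, ∑' d, ν d • F i (p * d) = ∑' d, ν d • F (i + 1) d := by
    intro p hp
    refine tsum_congr fun d => ?_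
    rcases Nat.eq_zero_or_pos d with hd | hd
    · rw [hd, h.zero, zero_smul, zero_smul]
    · rw [hrel p hp d hd i]
  rw [Finset.sum_congr rfl (fun p hp => by rw [h2 p hp]), ← Finset.sum_smul] at h1
  change _ = SS s • _ at h1
  set A := ∑' d, ν d • F (i + 1) d
  set B := ∑' d, ν d • F i d with hB
  have s1 : Summable (fun d => ν d • (om s d • F i d)) := by
    refine summ h (B := s.card * 1) fun d => ?_
    rw [norm_smul]
    exact mul_le_mul (Pool.Agent.W177.TL.om_norm s d) (hF _ _) (norm_nonneg _) (by positivity)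
  have s2 : Summable (fun d => ν d • F i d) := summ h (hF i)
  have h4 : SS s • (A - B) = ∑' d, ν d • ((om s d - SS s) • F i d) := by
    rw [smul_sub, ← h1, hB, ← tsum_const_smul'', ← s1.tsum_sub (s2.const_smul _)]
    refine tsum_congr fun d => ?_
    rw [sub_smul, smul_sub, smul_comm (SS s) (ν d)]
  have b1 : ∀ d, |om s d - SS s| ≤ s.card + SS s := by
    intro d
    refine (abs_sub _ _).trans ?_
    rw [abs_of_nonneg (om_nonneg s d), abs_of_nonneg hS.le]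
    linarith [om_le s d]
  have s3 : Summable (fun d => ν d • |om s d - SS s|) := by
    refine summ h (B := s.card + SS s) fun d => ?_
    rw [Real.norm_of_nonneg (abs_nonneg _)]
    exact b1 d
  have h5 : ‖∑' d, ν d • ((om s d - SS s) • F i d)‖ ≤ ∑' d, ν d • |om s d - SS s| := by
    refine tsum_of_norm_bounded s3.hasSum fun d => ?_
    rw [norm_smul, norm_smul, Real.norm_of_nonneg (h.nn d), Real.norm_eq_abs, smul_eq_mul]
    refine mul_le_mul_of_nonneg_left ?_ (h.nn d)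
    calc |om s d - SS s| * ‖F i d‖ ≤ |om s d - SS s| * 1 :=
          mul_le_mul_of_nonneg_left (hF _ _) (abs_nonneg _)
      _ = _ := mul_one _
  have h6 : SS s * ‖A - B‖ ≤ √(SS s) := by
    have h7 := h5.trans (E_abs h hS)
    rw [← h4, norm_smul, Real.norm_of_nonneg hS.le] at h7
    exact h7
  rw [le_div_iff₀ hq]
  have h8 : (‖A - B‖ * √(SS s)) * √(SS s) ≤ 1 * √(SS s) := by
    rw [mul_assoc, hqq, one_mul, mul_comm]
    exact h6
  exact le_of_mul_le_mul_right h8 hq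

theorem stepsF {s : Finset ℕ} {ν : ℕ → ℝ} (h : Law s ν) (hS : 0 < SS s) (F : ℕ → ℕ → ℂ)
    (hF : ∀ i d, ‖F i d‖ ≤ 1) (hrel : ∀ p ∈ s, ∀ d, 1 ≤ d → ∀ i, F i (p * d) = F (i + 1) d) (l : ℕ) :
    ‖∑' d, ν d • F l d - ∑' d, ν d • F 0 d‖ ≤ l * (1 / √(SS s)) := by
  induction l with
  | zero => simp
  | succ l ih =>
    have h1 := stepF h hS F hF hrel l
    have h2 := norm_add_le (∑' d, ν d • F (l + 1) d - ∑' d, ν d • F l d)
      (∑' d, ν d • F l d - ∑' d, ν d • F 0 d)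
    rw [sub_add_sub_cancel] at h2
    push_cast
    linarith

/-- shift invariance in total variation, for families of functions -/
theorem siF (w L : ℕ) (η : ℝ) (hη : 0 < η) : ∃ W0 : ℕ, ∀ W : ℕ, W0 ≤ W → ∀ y Z : ℕ, W ≤ y →
    ∀ ε : ℝ, |∑ d ∈ Icc 1 Z, mu w y d - 1| ≤ ε → ∀ F : ℕ → ℕ → ℂ, (∀ i d, ‖F i d‖ ≤ 1) →
    (∀ p : ℕ, p.Prime → p ≤ W → ∀ d, 1 ≤ d → ∀ i, F i (p * d) = F (i + 1) d) → ∀ l : ℕ, l ≤ L →
    ‖∑ d ∈ Icc 1 Z, F l d * (mu w y d : ℂ) - ∑ d ∈ Icc 1 Z, F 0 d * (mu w y d : ℂ)‖ ≤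
      2 * ε + η := by
  obtain ⟨W0, hW0⟩ := Pool.Agent.W177.TL.SS_large w (((L : ℝ) / η) ^ 2 + 1)
  refine ⟨W0, ?_⟩
  intro W hW y Z hWy ε hε F hF hrel l hl
  have hlaw : Law (PP w W) (mu w y) := law_sub (Pool.Agent.W177.TL.mu_law w y)
    fun l hl => PP_sub le_rfl hWy hl
  have hS1 := hW0 W hW
  have hS : 0 < SS (PP w W) := lt_of_lt_of_le (by positivity) hS1
  have h1 := stepsF hlaw hS F hF (fun p hp d hd i => hrel p (Pool.Agent.W208.TL.mem_PP.1 hp).2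
    (Pool.Agent.W208.TL.mem_PP.1 hp).1.2 d hd i) l
  have h2 := Pool.Agent.W177.TL.trunc hlaw (Finset.Icc 1 Z) (F l) (hF l)
  have h3 := Pool.Agent.W177.TL.trunc hlaw (Finset.Icc 1 Z) (F 0) (hF 0)
  have h4 : 1 - ∑ d ∈ Icc 1 Z, mu w y d ≤ ε := by
    have := (abs_le.mp hε).1
    linarith
  have h5 : (l : ℝ) * (1 / √(SS (PP w W))) ≤ η := by
    have hsq : (L : ℝ) / η ≤ √(SS (PP w W)) := by
      refine Real.le_sqrt_of_sq_le ?_
      linarith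
    have hpos : 0 < √(SS (PP w W)) := Real.sqrt_pos.mpr hS
    rw [mul_one_div, div_le_iff₀ hpos]
    have h6 : (l : ℝ) ≤ L := by exact_mod_cast hl
    have h7 := (div_le_iff₀ hη).mp hsq
    linarith
  have e1 : ∀ (F : ℕ → ℂ), ∑ d ∈ Icc 1 Z, F d * (mu w y d : ℂ) =
      ∑ d ∈ Icc 1 Z, mu w y d • F d := by
    intro F
    refine Finset.sum_congr rfl fun d _ => ?_
    rw [Complex.real_smul, mul_comm]
  rw [e1 (F l), e1 (F 0)]
  set A := ∑' d, mu w y d • F l d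
  set B := ∑' d, mu w y d • F 0 d
  set a := ∑ d ∈ Icc 1 Z, mu w y d • F l d
  set b := ∑ d ∈ Icc 1 Z, mu w y d • F 0 d
  have h8 : a - b = (A - B) - (A - a) + (B - b) := by ring
  rw [h8]
  have h9 := norm_add_le ((A - B) - (A - a)) (B - b)
  have h10 := norm_sub_le (A - B) (A - a)
  linarith

/-- the limit of the means -/
noncomputable def ML (w W y Z : ℕ) (Φ : ℕ → ℕ → ℂ) : ℂ :=
  ∑ d ∈ Icc 1 Z, pf W y Φ 0 d * (mu w y d : ℂ)

lemma sum_mu_le (w y Z : ℕ) : ∑ d ∈ Icc 1 Z, mu w y d ≤ 1 :=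
  sum_le_hasSum (Icc 1 Z) (fun d _ => (Pool.Agent.W177.TL.mu_law w y).nn d)
    (Pool.Agent.W177.TL.mu_law w y).sum

lemma ML_norm (w W y Z : ℕ) (Φ : ℕ → ℕ → ℂ) (hΦ : ∀ l s, ‖Φ l s‖ ≤ 1) : ‖ML w W y Z Φ‖ ≤ 1 := by
  unfold ML
  refine (norm_sum_le _ _).trans (le_trans (sum_le_sum fun d _ => ?_) (sum_mu_le w y Z))
  rw [norm_mul, Complex.norm_real, Real.norm_eq_abs, abs_of_nonneg (Pool.Agent.W208.TL.mu_nonneg w y _)]
  exact mul_le_of_le_one_left (Pool.Agent.W208.TL.mu_nonneg w y _) (hΦ _ _)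

theorem corr2 (J : ℕ) (hJ : 1 ≤ J) (a : Fin J → ℤ) (ha : Function.Injective a) (ha0 : ∀ j, a j ≠ 0)
    (ε : ℝ) (hε : 0 < ε) : ∃ A W0 : ℕ, 1 ≤ A ∧ 1 ≤ W0 ∧ ∀ W y : ℕ, W0 ≤ W → W ≤ y →
    ∃ M : (ℕ → ℕ → ℂ) → ℂ, (∀ Φ : ℕ → ℕ → ℂ, (∀ l s, ‖Φ l s‖ ≤ 1) → ‖M Φ‖ ≤ 1) ∧
    ‖M (fun _ _ => 1) - 1‖ ≤ ε ∧ ∀ X : ℕ,
    y ^ A ≤ X → ∀ Φ : Fin J → ℕ → ℕ → ℂ, (∀ j l s, ‖Φ j l s‖ ≤ 1) → ∀ l : Fin J → ℕ,
      (∀ j, l j ≤ 1) → ‖(∑ n ∈ Ioc 0 X, ∏ j, pf W y (Φ j) (l j) (lf 1 (a j) n)) / (X : ℂ) -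
        ∏ j, M (Φ j)‖ ≤ ε := by
  classical
  obtain ⟨ε1, h1, h1h, h1C⟩ : ∃ ε1 : ℝ, 0 < ε1 ∧ ε1 ≤ 1 / 2 ∧ (7 * J + 1) * ε1 ≤ ε := by
    refine ⟨min (1 / 2) (ε / (7 * J + 1)), lt_min (by norm_num) (by positivity), min_le_left _ _, ?_⟩
    calc (7 * (J : ℝ) + 1) * min (1 / 2) (ε / (7 * J + 1)) ≤ (7 * (J : ℝ) + 1) * (ε / (7 * J + 1)) :=
          mul_le_mul_of_nonneg_left (min_le_right _ _) (by positivity)
      _ = ε := by field_simp
  obtain ⟨Q, w, K1, K, y0, -, hQ, hK1, hK, H⟩ := Pool.Agent.W208.TL.ST_all J a hJ ha ha0 1 le_rfl ε1 h1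
  obtain ⟨W1, hW1⟩ := siF w (Om Q + 1) ε1 h1
  refine ⟨K, y0 + W1 + Q + 1, hK, by omega, ?_⟩
  intro W y hW hWy
  obtain ⟨Z, hZ⟩ : ∃ Z : ℕ, Z = y ^ K1 := ⟨_, rfl⟩
  have s1 := (H y (y ^ K) (by omega) le_rfl).1
  simp only [← hZ] at s1
  refine ⟨ML w W y Z, fun Φ hΦ => ML_norm w W y Z Φ hΦ, ?_, ?_⟩
  · have e1 : ML w W y Z (fun _ _ => 1) - 1 = ((∑ d ∈ Icc 1 Z, mu w y d - 1 : ℝ) : ℂ) := by
      unfold ML pf
      push_cast
      simp
    rw [e1, Complex.norm_real]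
    refine le_trans s1 (le_trans ?_ h1C)
    nlinarith [(Nat.cast_nonneg J : (0 : ℝ) ≤ J)]
  intro X hX Φ hΦ l hl
  obtain ⟨-, -, s3⟩ := H y X (by omega) hX
  rw [← hZ] at s3
  obtain ⟨s, hs⟩ : ∃ s : ℝ, s = ∑ d ∈ Icc 1 Z, mu w y d := ⟨_, rfl⟩
  have hsC : ∑ d ∈ Icc 1 Z, (mu w y d : ℂ) = (s : ℂ) := by
    rw [hs]
    push_cast
    rfl
  have s1' := s1
  rw [← hs] at s1
  have hshalf : 1 / 2 ≤ s := by
    have := (abs_le.1 s1).1
    linarith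
  have hs0 : 0 < s := by linarith
  have hsne : (s : ℂ) ≠ 0 := by exact_mod_cast hs0.ne'
  have hX1 : 1 ≤ X := le_trans (Nat.one_le_pow _ _ (by omega)) hX
  have hX0 : (0 : ℝ) < X := by exact_mod_cast hX1
  have hXc : (X : ℂ) ≠ 0 := by exact_mod_cast (by omega : X ≠ 0)
  -- one factor
  have hfac : ∀ (j : Fin J) (A : ℕ), A ∣ Q →
      ‖(∑ d ∈ Icc 1 Z, pf W y (Φ j) (l j) (A * d) * (mu w y d : ℂ)) / (s : ℂ) - ML w W y Z (Φ j)‖ ≤
        7 * ε1 ∧ ‖(∑ d ∈ Icc 1 Z, pf W y (Φ j) (l j) (A * d) * (mu w y d : ℂ)) / (s : ℂ)‖ ≤ 1 := by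
    intro j A hA
    have hbd : ∀ F : ℕ → ℂ, (∀ d, ‖F d‖ ≤ 1) → ‖∑ d ∈ Icc 1 Z, F d * (mu w y d : ℂ)‖ ≤ s := by
      intro F hF
      rw [hs]
      refine (norm_sum_le _ _).trans (sum_le_sum fun d _ => ?_)
      rw [norm_mul, Complex.norm_real, Real.norm_eq_abs,
        abs_of_nonneg (Pool.Agent.W208.TL.mu_nonneg w y _)]
      exact mul_le_of_le_one_left (Pool.Agent.W208.TL.mu_nonneg w y _) (hF _)
    refine ⟨?_, ?_⟩
    swap
    · rw [norm_div, Complex.norm_real, Real.norm_eq_abs, abs_of_pos hs0, div_le_one hs0]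
      exact hbd _ fun d => pf_norm (hΦ j) _ _ _ _
    have e1 : ∑ d ∈ Icc 1 Z, pf W y (Φ j) (l j) (A * d) * (mu w y d : ℂ) =
        ∑ d ∈ Icc 1 Z, pf W y (Φ j) (l j + Om A) d * (mu w y d : ℂ) :=
      sum_congr rfl fun d hd => by
        rw [pf_dvd (Φ j) (l j) hA hQ (by omega) (mem_Icc.1 hd).1]
    have e2 := hW1 W (by omega) y Z hWy ε1 s1' (pf W y (Φ j)) (fun i d => pf_norm (hΦ j) _ _ _ _)
      (fun p hp hpW d hd i => pf_mul (Φ j) i hp hpW hd) (l j + Om A) (by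
        have := Pool.Agent.W883.TL.Om_dvd (by omega) hA
        have := hl j
        omega)
    rw [← e1] at e2
    change ‖_ - ML w W y Z (Φ j)‖ ≤ _ at e2
    obtain ⟨M, hM⟩ : ∃ M : ℂ, M = ML w W y Z (Φ j) := ⟨_, rfl⟩
    have hMs : ‖M‖ ≤ s := by
      rw [hM]
      exact hbd _ fun d => pf_norm (hΦ j) _ _ _ _
    rw [← hM] at e2 ⊢
    have e5 : (∑ d ∈ Icc 1 Z, pf W y (Φ j) (l j) (A * d) * (mu w y d : ℂ)) / (s : ℂ) - M =
        (∑ d ∈ Icc 1 Z, pf W y (Φ j) (l j) (A * d) * (mu w y d : ℂ) - M) / s + M * (1 - s) / s := by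
      field_simp
      ring
    rw [e5]
    refine (norm_add_le _ _).trans ?_
    rw [norm_div, norm_div, norm_mul, Complex.norm_real, Real.norm_eq_abs, abs_of_pos hs0]
    have e6 : ‖(1 : ℂ) - s‖ ≤ ε1 := by
      have : (1 : ℂ) - s = ((1 - s : ℝ) : ℂ) := by push_cast; rfl
      rw [this, Complex.norm_real, Real.norm_eq_abs, abs_sub_comm]
      exact s1
    have e7 : ‖∑ d ∈ Icc 1 Z, pf W y (Φ j) (l j) (A * d) * (mu w y d : ℂ) - M‖ / s ≤ 6 * ε1 := by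
      rw [div_le_iff₀ hs0]
      nlinarith
    have e8 : ‖M‖ * ‖(1 : ℂ) - s‖ / s ≤ ε1 := by
      rw [div_le_iff₀ hs0]
      calc ‖M‖ * ‖(1 : ℂ) - s‖ ≤ s * ε1 := by gcongr
        _ = ε1 * s := by ring
    linarith
  -- the average over the product law
  have hcav : ∀ A : Fin J → ℕ, (∀ j, A j ∣ Q) →
      ‖cav w y Z (fun s : Fin J → ℕ => ∏ j, pf W y (Φ j) (l j) (s j)) A - ∏ j, ML w W y Z (Φ j)‖ ≤
        7 * J * ε1 := by
    intro A hA
    have e1 : cav w y Z (fun s : Fin J → ℕ => ∏ j, pf W y (Φ j) (l j) (s j)) A =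
        ∏ j, ((∑ d ∈ Icc 1 Z, pf W y (Φ j) (l j) (A j * d) * (mu w y d : ℂ)) / (s : ℂ)) := by
      unfold cav
      rw [hsC, prod_div_distrib, prod_const, card_univ, Fintype.card_fin]
      congr 1
      have e2 := Finset.prod_univ_sum (fun _ : Fin J => Icc 1 Z)
        (fun j d => pf W y (Φ j) (l j) (A j * d) * (mu w y d : ℂ))
      rw [e2]
      unfold Pool.Agent.W208.TL.box
      refine sum_congr rfl fun d _ => ?_
      rw [prod_mul_distrib]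
    rw [e1]
    refine (prod_diff univ _ _ (fun j => (hfac j (A j) (hA j)).2) (fun j =>
      ML_norm w W y Z _ (hΦ j))).trans ?_
    refine (sum_le_card_nsmul _ _ _ fun j _ => (hfac j (A j) (hA j)).1).trans (le_of_eq ?_)
    rw [card_univ, Fintype.card_fin, nsmul_eq_mul]
    ring
  have t3 := s3 (fun s : Fin J → ℕ => ∏ j, pf W y (Φ j) (l j) (s j)) (fun s => by
      rw [norm_prod]
      exact prod_le_one (fun _ _ => norm_nonneg _) fun j _ => pf_norm (hΦ j) _ _ _ _) (fun _ => 1)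
      Pool.Agent.W208.TL.kf_one (fun _ => 1) (fun _ => by simp) (fun _ => rfl)
  have e1 : (∑ n ∈ Ioc 0 X, ∏ j, pf W y (Φ j) (l j) (lf 1 (a j) n)) / (X : ℂ) -
        ∏ j, ML w W y Z (Φ j) = (1 / (X : ℂ)) * (∑ n ∈ Ioc 0 X, (1 : ℂ) * (1 *
          (∏ j, pf W y (Φ j) (l j) (sm 0 y (lf 1 (a j) n)) -
          cav w y Z (fun s : Fin J → ℕ => ∏ j, pf W y (Φ j) (l j) (s j))
            (fun j => Nat.gcd (lf 1 (a j) n) Q))) +
        ∑ n ∈ Ioc 0 X, (cav w y Z (fun s : Fin J → ℕ => ∏ j, pf W y (Φ j) (l j) (s j))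
            (fun j => Nat.gcd (lf 1 (a j) n) Q) - ∏ j, ML w W y Z (Φ j))) := by
    rw [← sum_add_distrib]
    have e2 : ∏ j, ML w W y Z (Φ j) = (1 / (X : ℂ)) * ∑ n ∈ Ioc 0 X, ∏ j, ML w W y Z (Φ j) := by
      rw [sum_const, Nat.card_Ioc, nsmul_eq_mul, Nat.sub_zero]
      field_simp
    conv_lhs => rw [e2]
    rw [div_eq_mul_one_div, mul_comm, ← mul_sub, ← sum_sub_distrib]
    congr 1
    refine sum_congr rfl fun n _ => ?_
    have e3 : ∏ j, pf W y (Φ j) (l j) (sm 0 y (lf 1 (a j) n)) =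
        ∏ j, pf W y (Φ j) (l j) (lf 1 (a j) n) := prod_congr rfl fun j _ => pf_sm hWy _ _ _
    rw [e3]
    ring
  rw [e1, norm_mul, norm_div, norm_one, Complex.norm_natCast, one_div, inv_mul_le_iff₀ hX0]
  have e4 : ‖∑ n ∈ Ioc 0 X, (cav w y Z (fun s : Fin J → ℕ => ∏ j, pf W y (Φ j) (l j) (s j))
            (fun j => Nat.gcd (lf 1 (a j) n) Q) - ∏ j, ML w W y Z (Φ j))‖ ≤ 7 * J * ε1 * X := by
    refine (norm_sum_le _ _).trans ((sum_le_card_nsmul _ _ _ fun n _ =>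
      hcav _ (fun j => Nat.gcd_dvd_right _ _)).trans (le_of_eq ?_))
    rw [nsmul_eq_mul, Nat.card_Ioc, Nat.sub_zero]
    ring
  refine (norm_add_le _ _).trans ?_
  calc _ ≤ ε1 * X + 7 * J * ε1 * X := add_le_add t3 e4
    _ = ((7 * J + 1) * ε1) * X := by ring
    _ ≤ X * ε := by rw [mul_comm (X : ℝ)]; gcongr

end Pool.Agent.Run7.h348.EE
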