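import Pool.Agent.Run7.h348.EE.Tele

/-!
Truncated and coarse coordinates against arbitrary companions.
-/

set_option autoImplicit false

namespace Pool.Agent.Run7.h348.EE

open Finset Filter Pool.Agent.Q270.EA Pool.Agent.Q270.EB
open Pool.Agent.W208.TL (sm PP)
open Pool.Agent.W883.TL (Om)

lemma HH_le (X : ℕ) (hX : 3 ≤ X) : HH X ≤ 2 * Real.log X := by
  have h1 := sum_inv_le X
  have h2 : 1 ≤ Real.log X := by
    rw [Real.le_log_iff_exp_le (by exact_mod_cast (by omega : 0 < X))]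
    have h3 : (3 : ℝ) ≤ X := by exact_mod_cast hX
    have h4 := Real.exp_one_lt_d9
    linarith
  unfold HH
  linarith

lemma LS_split (X Z : ℕ) (D : ℕ → ℝ) (B ε : ℝ) (hB : 0 ≤ B) (hε : 0 ≤ ε) (h1 : ∀ N, D N ≤ B)
    (h2 : ∀ N, Z ≤ N → D N ≤ ε) : LS X D ≤ ε * HH X + B * (1 + Real.log Z) := by
  classical
  have h3 : LS X D ≤ LS X (fun N => ε + if N < Z then B else 0) := by
    refine LS_mono fun N _ _ => ?_
    split_ifs with h
    · linarith [h1 N]
    · linarith [h2 N (by omega)]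
  refine h3.trans ?_
  rw [LS_add, LS_const]
  have h4 : LS X (fun N => if N < Z then B else 0) ≤ B * ∑ N ∈ Icc 1 Z, 1 / (N : ℝ) := by
    unfold LS
    rw [mul_sum]
    have e1 : ∀ N ∈ Icc 1 X, (1 / (N : ℝ)) * (if N < Z then B else 0) =
        if N < Z then B * (1 / (N : ℝ)) else 0 := fun N _ => by split_ifs <;> ring
    rw [sum_congr rfl e1, ← sum_filter]
    refine sum_le_sum_of_subset_of_nonneg (fun N hN => ?_) fun _ _ _ => by positivity
    rw [mem_filter, mem_Icc] at hN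
    rw [mem_Icc]
    omega
  have h5 := mul_le_mul_of_nonneg_left (sum_inv_le Z) hB
  linarith

/-- the truncated case -/
def Trunc (A w X : ℕ) (F : ℕ → ℂ) : Prop :=
  ∃ W y : ℕ, w ≤ W ∧ W ≤ y ∧ y ^ A ≤ X ∧ ∃ Φ : ℕ → ℕ → ℂ, (∀ l s, ‖Φ l s‖ ≤ 1) ∧ F = pf W y Φ 0

/-- soft functions: functions of the number of prime factors up to `W`, of the part composed of the
primes in `(W, y]` and of the number of all prime factors, varying slowly with the last -/
def Soft (A w : ℕ) (δ : ℝ) (X : ℕ) (F : ℕ → ℂ) : Prop :=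
  ∃ W y : ℕ, w ≤ W ∧ W ≤ y ∧ y ^ A ≤ X ∧ ∃ B : ℕ → ℕ → ℕ → ℂ, (∀ l s m, ‖B l s m‖ ≤ 1) ∧
    (∀ l s m, ‖B l s (m + 1) - B l s m‖ ≤ δ) ∧
    F = fun n => B (Oy W n) (sm W y n) (ArithmeticFunction.cardFactors n)

/-- the truncated case, means over `n ≤ N` -/
theorem teleN (k : ℕ) (hk : 1 ≤ k) (h : Fin (k + 1) → ℕ) (hh : Function.Injective h) (ε : ℝ)
    (hε : 0 < ε) : ∃ A w X0 : ℕ, 1 ≤ A ∧ 2 ≤ w ∧ ∀ X : ℕ, X0 ≤ X → ∀ S : Finset (Fin (k + 1)),
    ∀ F : Fin (k + 1) → ℕ → ℂ, (∀ i ∈ S, Trunc A w X (F i)) → (∀ i, i ∉ S → Cp w (F i)) →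
      LS X (fun N => ‖EN N (fun n => ∏ i, F i (n + h i)) -
        (∏ i ∈ S, EN N (F i)) * EN N (fun n => ∏ i ∈ Sᶜ, F i (n + h i))‖) ≤ ε * Real.log X := by
  classical
  obtain ⟨η, hη⟩ : ∃ η : ℝ, η = ε / (8 * (k + 1)) := ⟨_, rfl⟩
  have hη0 : 0 < η := by rw [hη]; positivity
  have hηk : 8 * ((k + 1) * η) = ε := by rw [hη]; field_simp
  obtain ⟨A1, w1, hA1, hw1, H1⟩ := tele k hk (fun i => (h i : ℤ))
    (fun i j hij => hh (Nat.cast_injective hij)) (ε / 8) (by positivity)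
  obtain ⟨A2, w2, hA2, hw2, H2⟩ := mean_law2 η hη0
  obtain ⟨R, hR⟩ := exists_nat_ge (2 * (A2 : ℝ) / η)
  obtain ⟨X1, hX1⟩ := exists_nat_ge (Real.exp (2 / η))
  refine ⟨max A1 A2 + R, max w1 w2, max 3 X1, le_trans (le_trans hA1 (le_max_left A1 A2))
    (Nat.le_add_right _ _), le_trans hw1 (le_max_left w1 w2), ?_⟩
  intro X hX S F hF hFc
  have hX3 : 3 ≤ X := (le_max_left _ _).trans hX
  have hXX1 : X1 ≤ X := (le_max_right _ _).trans hX
  have hX0 : (0 : ℝ) < X := by exact_mod_cast (by omega : 0 < X)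
  have hlog : 2 / η ≤ Real.log X := (Real.le_log_iff_exp_le hX0).2
    (hX1.trans (by exact_mod_cast hXX1))
  rw [div_le_iff₀ hη0] at hlog
  obtain ⟨W, y, c, hy, hc1, hc2⟩ : ∃ (W y : Fin (k + 1) → ℕ) (c : Fin (k + 1) → ℕ → ℕ → ℂ),
      (∀ i ∈ S, max w1 w2 ≤ W i ∧ W i ≤ y i ∧ y i ^ (max A1 A2 + R) ≤ X) ∧
      (∀ i l s, ‖c i l s‖ ≤ 1) ∧ ∀ i ∈ S, F i = pf (W i) (y i) (c i) 0 := by
    have : ∀ i, ∃ (W y : ℕ) (c : ℕ → ℕ → ℂ), (i ∈ S → max w1 w2 ≤ W ∧ W ≤ y ∧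
        y ^ (max A1 A2 + R) ≤ X) ∧ (∀ l s, ‖c l s‖ ≤ 1) ∧ (i ∈ S → F i = pf W y c 0) := fun i => by
      by_cases hi : i ∈ S
      · obtain ⟨W, y, h1, h2, h3, c, h4, h5⟩ := hF i hi
        exact ⟨W, y, c, fun _ => ⟨h1, h2, h3⟩, h4, fun _ => h5⟩
      · exact ⟨0, 0, fun _ _ => 0, fun h => absurd h hi, fun _ _ => by simp, fun h => absurd h hi⟩
    choose W y c h1 h2 h3 using this
    exact ⟨W, y, c, h1, h2, h3⟩
  have hmono : ∀ {i : Fin (k + 1)} {B : ℕ}, i ∈ S → B ≤ max A1 A2 + R → y i ^ B ≤ X := by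
    intro i B hi hB
    refine (Nat.pow_le_pow_right ?_ hB).trans (hy i hi).2.2
    have := hy i hi
    have := le_max_left w1 w2
    omega
  have h1 := H1 X S W y (fun i hi => ⟨(le_max_left _ _).trans (hy i hi).1, (hy i hi).2.1,
    hmono hi ((le_max_left _ _).trans (Nat.le_add_right _ _))⟩) c hc1 F hc2
    (fun i hi => by
      obtain ⟨g, G, hg, hG, hgG⟩ := hFc i hi
      exact ⟨g, G, hg, QM_mono (le_max_left _ _) hG, hgG⟩)
  have hpt : ∀ (i : Fin (k + 1)) (n : ℕ), pt (h i) n = n + h i := fun i n => by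
    unfold pt
    exact Int.toNat_natCast (n + h i)
  simp only [hpt] at h1
  -- the means
  have h2 : ∀ i ∈ S, LS X (fun N => ‖mp (W i) (y i) N (c i) - mp (W i) (y i) X (c i)‖) ≤
      4 * η * Real.log X := by
    intro i hi
    have hyw := (hy i hi).1
    have hyW := (hy i hi).2.1
    have hy2 : w2 ≤ W i := (le_max_right _ _).trans hyw
    have hy1 : 2 ≤ y i := ((hw1.trans (le_max_left _ _)).trans hyw).trans hyW
    have e1 := LS_split X (y i ^ A2) (fun N => ‖mp (W i) (y i) N (c i) - mp (W i) (y i) X (c i)‖) 2 η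
      (by norm_num) hη0.le (fun N => by
        have a1 := norm_sub_le (mp (W i) (y i) N (c i)) (mp (W i) (y i) X (c i))
        have a2 := mp_norm (W i) (y i) N (c i) (hc1 i)
        have a3 := mp_norm (W i) (y i) X (c i) (hc1 i)
        linarith)
      (fun N hN => (H2 (W i) (y i) hy2 hyW N X hN (hmono hi ((le_max_right _ _).trans
        (Nat.le_add_right _ _))) (c i) (hc1 i)).2)
    have e2 : Real.log ((y i ^ A2 : ℕ) : ℝ) = A2 * Real.log (y i) := by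
      push_cast
      rw [Real.log_pow]
    have e3 : (R : ℝ) * Real.log (y i) ≤ Real.log X := by
      have e4 : y i ^ R ≤ X := hmono hi (Nat.le_add_left _ _)
      have e5 : Real.log ((y i : ℝ) ^ R) ≤ Real.log X := by
        refine Real.log_le_log (by positivity) (by exact_mod_cast e4)
      rwa [Real.log_pow] at e5
    have e6 : 2 * (A2 : ℝ) * Real.log (y i) ≤ η * Real.log X := by
      rw [div_le_iff₀ hη0] at hR
      have e7 : 0 ≤ Real.log (y i) := Real.log_natCast_nonneg _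
      calc 2 * (A2 : ℝ) * Real.log (y i) ≤ (R * η) * Real.log (y i) := by gcongr
        _ = η * (R * Real.log (y i)) := by ring
        _ ≤ η * Real.log X := by gcongr
    have e8 := mul_le_mul_of_nonneg_left (HH_le X hX3) hη0.le
    rw [e2] at e1
    linarith
  have h3 : LS X (fun N => ‖EN N (fun n => ∏ i, F i (n + h i)) -
        (∏ i ∈ S, EN N (F i)) * EN N (fun n => ∏ i ∈ Sᶜ, F i (n + h i))‖) ≤
      LS X (fun N => ‖EN N (fun n => ∏ i, F i (n + h i)) -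
        (∏ i ∈ S, mp (W i) (y i) X (c i)) * EN N (fun n => ∏ i ∈ Sᶜ, F i (n + h i))‖ +
        ∑ i ∈ S, ‖mp (W i) (y i) N (c i) - mp (W i) (y i) X (c i)‖) := by
    refine LS_mono fun N _ _ => ?_
    obtain ⟨E, hE⟩ : ∃ E : ℂ, E = EN N (fun n => ∏ i ∈ Sᶜ, F i (n + h i)) := ⟨_, rfl⟩
    have hE1 : ‖E‖ ≤ 1 := by
      rw [hE]
      refine EN_norm N _ fun n => ?_
      rw [norm_prod]
      exact prod_le_one (fun _ _ => norm_nonneg _) fun i hi => Cp_norm (hFc i (mem_compl.1 hi)) _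
    rw [← hE]
    have e1 : ∏ i ∈ S, EN N (F i) = ∏ i ∈ S, mp (W i) (y i) N (c i) := prod_congr rfl fun i hi => by
      rw [hc2 i hi]
      rfl
    rw [e1]
    have e2 : EN N (fun n => ∏ i, F i (n + h i)) - (∏ i ∈ S, mp (W i) (y i) N (c i)) * E =
        (EN N (fun n => ∏ i, F i (n + h i)) - (∏ i ∈ S, mp (W i) (y i) X (c i)) * E) -
        (∏ i ∈ S, mp (W i) (y i) N (c i) - ∏ i ∈ S, mp (W i) (y i) X (c i)) * E := by ring
    rw [e2]
    refine (norm_sub_le _ _).trans ?_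
    rw [norm_mul _ E]
    have e3 := prod_diff S (fun i => mp (W i) (y i) N (c i)) (fun i => mp (W i) (y i) X (c i))
      (fun i => mp_norm _ _ _ _ (hc1 i)) (fun i => mp_norm _ _ _ _ (hc1 i))
    have e4 : ‖∏ i ∈ S, mp (W i) (y i) N (c i) - ∏ i ∈ S, mp (W i) (y i) X (c i)‖ * ‖E‖ ≤
        ‖∏ i ∈ S, mp (W i) (y i) N (c i) - ∏ i ∈ S, mp (W i) (y i) X (c i)‖ * 1 := by gcongr
    linarith
  refine h3.trans ?_
  rw [LS_add, LS_sum]
  have h4 := sum_le_sum h2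
  rw [sum_const, nsmul_eq_mul] at h4
  have h5 : (S.card : ℝ) ≤ k + 1 := by
    have := card_le_univ S
    rw [Fintype.card_fin] at this
    exact_mod_cast this
  have hlog0 : 0 ≤ Real.log X := Real.log_natCast_nonneg X
  have h6 : (S.card : ℝ) * (4 * η * Real.log X) ≤ ε / 2 * Real.log X := by
    calc (S.card : ℝ) * (4 * η * Real.log X) ≤ (k + 1) * (4 * η * Real.log X) := by gcongr
      _ = ε / 2 * Real.log X := by rw [← hηk]; ring
  have h7 : ε / 8 * HH X ≤ ε / 8 * (2 * Real.log X) := by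
    gcongr
    exact HH_le X hX3
  have h8 : ε / 4 * Real.log X ≤ ε / 2 * Real.log X := by
    have : ε / 4 ≤ ε / 2 := by linarith
    gcongr
  linarith

/-- slowly varying functions -/
lemma Γ_diff {Γ : ℕ → ℂ} {δ : ℝ} (h : ∀ l, ‖Γ (l + 1) - Γ l‖ ≤ δ) (l m : ℕ) :
    ‖Γ (l + m) - Γ l‖ ≤ m * δ := by
  induction m with
  | zero => simp
  | succ m ih =>
    have e : Γ (l + (m + 1)) - Γ l = (Γ (l + m + 1) - Γ (l + m)) + (Γ (l + m) - Γ l) := by
      rw [← add_assoc]; ring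
    rw [e]
    refine (norm_add_le _ _).trans ?_
    push_cast
    linarith [h (l + m)]

lemma Γ_Oy {Γ : ℕ → ℂ} {δ : ℝ} (hδ : 0 ≤ δ) (h : ∀ l, ‖Γ (l + 1) - Γ l‖ ≤ δ) {n y R : ℕ} (hy : 1 < y)
    (hn : n < y ^ (R + 1)) : ‖Γ (ArithmeticFunction.cardFactors n) - Γ (Oy y n)‖ ≤ R * δ := by
  rcases Nat.eq_zero_or_pos n with h0 | h0
  · subst h0
    have e : Oy y 0 = 0 := by
      unfold Oy
      rw [Pool.Agent.W883.TL.sm_zero]
      simp [Om]
    rw [e, ArithmeticFunction.cardFactors_zero, sub_self, norm_zero]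
    positivity
  obtain ⟨h1, h2⟩ := Pool.Agent.W883.TL.big_bound h0.ne' hy hn
  obtain ⟨m, hm⟩ := Nat.exists_eq_add_of_le h1
  have e1 : ArithmeticFunction.cardFactors n = Oy y n + m := hm
  have e2 : m ≤ R := by
    rw [hm] at h2
    omega
  rw [e1]
  refine (Γ_diff h _ m).trans ?_
  have : (m : ℝ) ≤ R := by exact_mod_cast e2
  gcongr

lemma sm_sm' {W y z : ℕ} (h : y ≤ z) (n : ℕ) : sm W y (sm W z n) = sm W y n := by
  unfold sm
  refine prod_congr rfl fun l hl => ?_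
  have := sm_fact W z n l
  unfold sm at this
  rw [this, if_pos (PP_sub le_rfl h hl)]

lemma Oy_split {W z : ℕ} (h : W ≤ z) (n : ℕ) : Oy W n + Om (sm W z n) = Oy z n :=
  (Pool.Agent.W883.TL.Om_split h n).symm

theorem soft (k : ℕ) (hk : 1 ≤ k) (h : Fin (k + 1) → ℕ) (hh : Function.Injective h) (ε : ℝ)
    (hε : 0 < ε) : ∃ (A w : ℕ) (δ : ℝ) (X0 : ℕ), 1 ≤ A ∧ 2 ≤ w ∧ 0 < δ ∧ ∀ X : ℕ, X0 ≤ X →
    ∀ S : Finset (Fin (k + 1)), ∀ F : Fin (k + 1) → ℕ → ℂ, (∀ i ∈ S, Soft A w δ X (F i)) →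
      (∀ i, i ∉ S → Cp w (F i)) →
      LS X (fun N => ‖EN N (fun n => ∏ i, F i (n + h i)) -
        (∏ i ∈ S, EN N (F i)) * EN N (fun n => ∏ i ∈ Sᶜ, F i (n + h i))‖) ≤ ε * Real.log X := by
  classical
  obtain ⟨A, w, X1, hA, hw, H⟩ := teleN k hk h hh (ε / 2) (by positivity)
  obtain ⟨η, hη⟩ : ∃ η : ℝ, η = ε / (8 * (k + 1)) := ⟨_, rfl⟩
  have hη0 : 0 < η := by rw [hη]; positivity
  have hηk : 8 * ((k + 1) * η) = ε := by rw [hη]; field_simp
  obtain ⟨T, hT⟩ : ∃ T : ℕ, T = ∑ i, h i := ⟨_, rfl⟩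
  have hA0 : (0 : ℝ) < A := by exact_mod_cast hA
  refine ⟨A, w, η / (2 * A), max (max 3 X1) ((w + T) ^ A), hA, hw, by positivity, ?_⟩
  intro X hX S F hF hFc
  have hX3 : 3 ≤ X := ((le_max_left _ _).trans (le_max_left _ _)).trans hX
  have hXX1 : X1 ≤ X := ((le_max_right _ _).trans (le_max_left _ _)).trans hX
  have hXw : (w + T) ^ A ≤ X := (le_max_right _ _).trans hX
  -- the largest `y` with `y ^ A ≤ X`
  obtain ⟨y, hy1, hy2, hy3⟩ : ∃ y : ℕ, (∀ z : ℕ, z ^ A ≤ X → z ≤ y) ∧ y ^ A ≤ X ∧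
      X < (y + 1) ^ A := by
    refine ⟨Nat.findGreatest (fun y => y ^ A ≤ X) X, ?_, ?_, ?_⟩
    · intro z hz
      exact Nat.le_findGreatest ((Nat.le_self_pow (by omega) _).trans hz) hz
    · exact Nat.findGreatest_spec (P := fun y => y ^ A ≤ X)
        ((Nat.le_self_pow (by omega) _).trans hXw) hXw
    · by_contra hcon
      push Not at hcon
      have h1 := Nat.le_findGreatest (P := fun y => y ^ A ≤ X)
        ((Nat.le_self_pow (by omega) _).trans hcon) hcon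
      omega
  have hwTy : w + T ≤ y := hy1 _ hXw
  have hy4 : ∀ n : ℕ, n ≤ X + T → n < y ^ (2 * A + 1) := by
    intro n hn
    have e1 : (y + 1) ^ A ≤ y ^ (2 * A) := by
      rw [pow_mul]
      refine Nat.pow_le_pow_left ?_ A
      nlinarith
    have e2 : y ≤ y ^ (2 * A) := Nat.le_self_pow (by omega) y
    have e3 : y ^ (2 * A) * 2 ≤ y ^ (2 * A + 1) := by
      rw [pow_succ]
      exact Nat.mul_le_mul_left _ (by omega)
    omega
  obtain ⟨F', hF'⟩ : ∃ F' : Fin (k + 1) → ℕ → ℂ, (∀ i, i ∉ S → F' i = F i) ∧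
      (∀ i ∈ S, Trunc A w X (F' i)) ∧ ∀ i n, n ≤ X + T → ‖F i n - F' i n‖ ≤ η := by
    have : ∀ i, ∃ f' : ℕ → ℂ, (i ∉ S → f' = F i) ∧ (i ∈ S → Trunc A w X f') ∧
        ∀ n, n ≤ X + T → ‖F i n - f' n‖ ≤ η := by
      intro i
      by_cases hi : i ∈ S
      · obtain ⟨W, z, hW, hWz, hz, B, hB1, hB2, hB⟩ := hF i hi
        have hzy : z ≤ y := hy1 z hz
        refine ⟨pf W y (fun l s => B l (sm W z s) (l + Om s)) 0, fun h => absurd hi h,
          fun _ => ⟨W, y, hW, hWz.trans hzy, hy2, _, fun l s => hB1 _ _ _, rfl⟩, fun n hn => ?_⟩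
        rw [hB]
        unfold pf
        dsimp only
        rw [add_zero, sm_sm' hzy, Oy_split (hWz.trans hzy)]
        have e1 := Γ_Oy (by positivity) (hB2 (Oy W n) (sm W z n)) (show 1 < y by omega) (hy4 n hn)
        refine e1.trans (le_of_eq ?_)
        push_cast
        field_simp
      · exact ⟨F i, fun _ => rfl, fun h => absurd h hi, fun n _ => by
          rw [sub_self, norm_zero]; exact hη0.le⟩
    choose F' h1 h2 h3 using this
    exact ⟨F', h1, h2, h3⟩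
  obtain ⟨hF1, hF2, hF3⟩ := hF'
  have hmain := H X hXX1 S F' hF2 (fun i hi => by rw [hF1 i hi]; exact hFc i hi)
  have hFb : ∀ i n, ‖F i n‖ ≤ 1 := by
    intro i n
    by_cases hi : i ∈ S
    · obtain ⟨W, z, -, -, -, B, hB1, -, hB⟩ := hF i hi
      rw [hB]
      exact hB1 _ _ _
    · exact Cp_norm (hFc i hi) n
  have hFb' : ∀ i n, ‖F' i n‖ ≤ 1 := by
    intro i n
    by_cases hi : i ∈ S
    · obtain ⟨W, z, -, -, -, c, hc, hc'⟩ := hF2 i hi
      rw [hc']; exact hc _ _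
    · rw [hF1 i hi]; exact Cp_norm (hFc i hi) n
  have hhT : ∀ i, h i ≤ T := fun i => by
    rw [hT]
    exact single_le_sum (f := h) (fun _ _ => Nat.zero_le _) (mem_univ i)
  have hcard : ∀ s : Finset (Fin (k + 1)), (s.card : ℝ) ≤ k + 1 := by
    intro s
    have := card_le_univ s
    rw [Fintype.card_fin] at this
    exact_mod_cast this
  have hpr : ∀ (s : Finset (Fin (k + 1))) (N : ℕ), N ≤ X →
      ‖EN N (fun n => ∏ i ∈ s, F i (n + h i)) - EN N (fun n => ∏ i ∈ s, F' i (n + h i))‖ ≤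
        (k + 1) * η := by
    intro s N hN
    rw [← EN_sub]
    refine EN_le N _ _ (by positivity) fun n hn1 hn2 => ?_
    refine (prod_diff s (fun i => F i (n + h i)) (fun i => F' i (n + h i)) (fun i => hFb _ _)
      (fun i => hFb' _ _)).trans ?_
    refine (sum_le_card_nsmul _ _ η fun i _ => hF3 i _ ?_).trans ?_
    · have := hhT i
      omega
    · rw [nsmul_eq_mul]
      exact mul_le_mul_of_nonneg_right (hcard s) hη0.le
  have hmn : ∀ N : ℕ, N ≤ X → ‖∏ i ∈ S, EN N (F i) - ∏ i ∈ S, EN N (F' i)‖ ≤ (k + 1) * η := by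
    intro N hN
    refine (prod_diff S (fun i => EN N (F i)) (fun i => EN N (F' i)) (fun i => EN_norm N _ (hFb i))
      (fun i => EN_norm N _ (hFb' i))).trans ?_
    refine (sum_le_card_nsmul _ _ η fun i _ => ?_).trans ?_
    · rw [← EN_sub]
      exact EN_le N _ _ hη0.le fun n _ hn => hF3 i n (by omega)
    · rw [nsmul_eq_mul]
      exact mul_le_mul_of_nonneg_right (hcard S) hη0.le
  have h3 : LS X (fun N => ‖EN N (fun n => ∏ i, F i (n + h i)) -
        (∏ i ∈ S, EN N (F i)) * EN N (fun n => ∏ i ∈ Sᶜ, F i (n + h i))‖) ≤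
      LS X (fun N => ‖EN N (fun n => ∏ i, F' i (n + h i)) -
        (∏ i ∈ S, EN N (F' i)) * EN N (fun n => ∏ i ∈ Sᶜ, F' i (n + h i))‖ + 2 * ((k + 1) * η)) := by
    refine LS_mono fun N _ hN => ?_
    have e0 : EN N (fun n => ∏ i ∈ Sᶜ, F' i (n + h i)) = EN N (fun n => ∏ i ∈ Sᶜ, F i (n + h i)) := by
      congr 1
      funext n
      exact prod_congr rfl fun i hi => by rw [hF1 i (mem_compl.1 hi)]
    rw [e0]
    obtain ⟨E, hE⟩ : ∃ E : ℂ, E = EN N (fun n => ∏ i ∈ Sᶜ, F i (n + h i)) := ⟨_, rfl⟩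
    have hE1 : ‖E‖ ≤ 1 := by
      rw [hE]
      refine EN_norm N _ fun n => ?_
      rw [norm_prod]
      exact prod_le_one (fun _ _ => norm_nonneg _) fun i hi => hFb _ _
    rw [← hE]
    have e2 : EN N (fun n => ∏ i, F i (n + h i)) - (∏ i ∈ S, EN N (F i)) * E =
        (EN N (fun n => ∏ i, F' i (n + h i)) - (∏ i ∈ S, EN N (F' i)) * E) +
        (EN N (fun n => ∏ i, F i (n + h i)) - EN N (fun n => ∏ i, F' i (n + h i))) -
        (∏ i ∈ S, EN N (F i) - ∏ i ∈ S, EN N (F' i)) * E := by ring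
    rw [e2]
    refine (norm_sub_le _ _).trans ?_
    have e5 := norm_add_le (EN N (fun n => ∏ i, F' i (n + h i)) - (∏ i ∈ S, EN N (F' i)) * E)
      (EN N (fun n => ∏ i, F i (n + h i)) - EN N (fun n => ∏ i, F' i (n + h i)))
    rw [norm_mul _ E]
    have e4 : ‖∏ i ∈ S, EN N (F i) - ∏ i ∈ S, EN N (F' i)‖ * ‖E‖ ≤
        ‖∏ i ∈ S, EN N (F i) - ∏ i ∈ S, EN N (F' i)‖ * 1 := by gcongr
    have e6 := hpr univ N hN
    have e7 := hmn N hN
    linarith
  refine h3.trans ?_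
  rw [LS_add, LS_const]
  have h7 : 2 * ((k + 1) * η) * HH X ≤ 2 * ((k + 1) * η) * (2 * Real.log X) := by
    gcongr
    exact HH_le X hX3
  have h8 : 2 * ((k + 1) * η) * (2 * Real.log X) = ε / 2 * Real.log X := by
    rw [← hηk]
    ring
  linarith

end Pool.Agent.Run7.h348.EE
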