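import Pool.Agent.Run7.h348.EE.Cub

/-!
The number of prime factors up to `W` and the `(W, y]`-part of `n + a 0` are asymptotically
independent of arbitrary companions at the other shifts, at almost all scales.
-/

set_option autoImplicit false

namespace Pool.Agent.Run7.h348.EE

open Finset Filter Pool.Agent.Q270.EA Pool.Agent.Q270.EB
open Pool.Agent.W208.TL (sm PP)
open Pool.Agent.W883.TL (Om)

lemma QM_mono {w y : ℕ} (h : w ≤ y) {G : ℕ → ℂ} (hG : QM y G) : QM w G := by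
  obtain ⟨h1, H, c, h2, h3, h4⟩ := hG
  exact ⟨h1, H, c, h2, h3, fun p m hp hpw hm hpm => h4 p m hp (hpw.trans h) hm hpm⟩

lemma sm_mul_prime {w p m : ℕ} (hp : p.Prime) (hpw : p ≤ w) (hm : 1 ≤ m) :
    sm 0 w (p * m) = p * sm 0 w m := by
  classical
  have hpP : p ∈ PP 0 w := Pool.Agent.W208.TL.mem_PP.2 ⟨⟨hp.pos, hpw⟩, hp⟩
  have h1 : ∀ l ∈ PP 0 w, l ^ (p * m).factorization l = (if p = l then l else 1) * l ^ m.factorization l := by
    intro l hl
    rw [Nat.factorization_mul hp.ne_zero (by omega), Finsupp.add_apply, hp.factorization,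
      Finsupp.single_apply]
    split_ifs with h
    · rw [pow_add, pow_one]
    · rw [zero_add, one_mul]
  unfold sm
  rw [prod_congr rfl h1, prod_mul_distrib, prod_ite_eq, if_pos hpP]

/-- functions of the number of prime factors up to `w` and of the `w`-rough part -/
lemma QM_rough (w : ℕ) (B : ℕ → ℕ → ℂ) (hB : ∀ l s, ‖B l s‖ ≤ 1) :
    QM w (fun n => B (Oy w n) (n / sm 0 w n)) := by
  refine ⟨fun n => hB _ _, fun n => B (Oy w n - 1) (n / sm 0 w n),
    fun _ => 1, fun n => hB _ _, fun _ => norm_one, fun p m hp hpy hm hpm => ?_⟩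
  dsimp only
  rw [Oy_mul hp hpy hm, sm_mul_prime hp hpy hm, Nat.mul_div_mul_left _ _ hp.pos, one_mul,
    Nat.add_sub_cancel]

/-- functions of the number of prime factors up to `W` and of the `(W, y]`-part -/
lemma QM_pf (W y : ℕ) (Φ : ℕ → ℕ → ℂ) (hΦ : ∀ l s, ‖Φ l s‖ ≤ 1) : QM W (pf W y Φ 0) := by
  refine ⟨fun n => hΦ _ _, fun n => Φ (Oy W n - 1) (sm W y n),
    fun _ => 1, fun n => hΦ _ _, fun _ => norm_one, fun p m hp hpy hm hpm => ?_⟩
  dsimp only
  unfold pf
  rw [Oy_mul hp hpy hm, sm_mul hp.one_lt.le hpy hm, one_mul, Nat.add_sub_cancel, add_zero]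

theorem t_TO (k : ℕ) (hk : 1 ≤ k) (a : Fin (k + 1) → ℤ) (ha : Function.Injective a) (ε : ℝ)
    (hε : 0 < ε) : ∃ A w : ℕ, 1 ≤ A ∧ 2 ≤ w ∧ ∀ W y : ℕ, w ≤ W → W ≤ y → ∀ X : ℕ, y ^ A ≤ X →
    ∀ Φ : ℕ → ℕ → ℂ, (∀ l s, ‖Φ l s‖ ≤ 1) → ∀ g G : Fin k → ℕ → ℂ, (∀ j, BM (g j)) →
      (∀ j, QM w (G j)) →
      AS X (cor a (fun n => pf W y Φ 0 n - mp W y X Φ) (fun j n => g j n * G j n)) ≤ ε := by
  classical
  by_contra hcon
  push Not at hcon
  choose K y₀ hK1 hy₀1 hy₀ using fun (t : Fin k → ℤ) (ht : ND t) (n : ℕ) =>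
    cub2 k t ht (1 / ((n : ℝ) + 1)) (by positivity)
  obtain ⟨e, he⟩ : ∃ e : ℕ → (Fin k → ℤ) × ℕ, Function.Surjective e := exists_surjective_nat _
  obtain ⟨thr, hthr⟩ : ∃ thr : ℕ → ℕ, thr = fun m => if h : ND (e m).1 then
    y₀ (e m).1 h (e m).2 else 0 := ⟨_, rfl⟩
  have hcon' : ∀ i : ℕ, ∃ V W Y X : ℕ, i + 2 ≤ V ∧ V ≤ W ∧ W ≤ Y ∧ (∀ m ≤ i, thr m ≤ W) ∧
      Y ^ (i + 1) ≤ X ∧ ∃ (c : ℕ → ℕ → ℂ) (g G : Fin k → ℕ → ℂ), (∀ l s, ‖c l s‖ ≤ 1) ∧
        (∀ j, BM (g j)) ∧ (∀ j, QM V (G j)) ∧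
        ε < AS X (cor a (fun n => pf W Y c 0 n - mp W Y X c) (fun j n => g j n * G j n)) := by
    intro i
    obtain ⟨W, Y, hW, hWY, X, hX, c, hc, g, G, hg, hG, hA⟩ := hcon (i + 1)
      (i + 2 + ∑ m ∈ range (i + 1), thr m) (by omega) (by omega)
    refine ⟨_, W, Y, X, by omega, hW, hWY, fun m hm => ?_, hX, c, g, G, hc, hg, hG, hA⟩
    have h1 : thr m ≤ ∑ m ∈ range (i + 1), thr m :=
      single_le_sum (f := fun m => thr m) (fun _ _ => Nat.zero_le _) (mem_range.2 (by omega))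
    omega
  choose V W Y X hV1 hVW hWY hY hYX c g G hc hg hG hε' using hcon'
  have hY1 : ∀ i, i + 2 ≤ Y i := fun i => ((hV1 i).trans (hVW i)).trans (hWY i)
  have hX : ∀ i, i + 2 ≤ X i := fun i =>
    (hY1 i).trans ((Nat.le_self_pow (by omega) (Y i)).trans (hYX i))
  have hXt : Tendsto X atTop atTop := tendsto_atTop_mono (fun i => by
    have := hX i
    show i ≤ X i
    omega) tendsto_id
  have hVt : Tendsto V atTop atTop := tendsto_atTop_mono (fun i => by
    have := hV1 i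
    show i ≤ V i
    omega) tendsto_id
  have hG1 : ∀ i j n, ‖G i j n‖ ≤ 1 := fun i j => (hG i j).1
  have hG2 := fun i j => (hG i j).2
  choose H d hH hd hrel using hG2
  obtain ⟨f, hf⟩ : ∃ f : ℕ → ℕ → ℂ, f = fun i n =>
    (1 / 2 : ℂ) * (pf (W i) (Y i) (c i) 0 n - mp (W i) (Y i) (X i) (c i)) := ⟨_, rfl⟩
  have hf1 : ∀ i n, ‖f i n‖ ≤ 1 := by
    intro i n
    rw [hf]
    exact half_norm (hc i _ _) (mp_norm _ _ _ _ (hc i))
  refine seqC Pool.Agent.Q285.EA.t_UNIF k hk X hXt V hVt f (fun i => zz (W i) (Y i) (X i) (c i)) hf1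
    (fun i n => zz_norm _ _ _ _ (hc i) n) (fun i p hp hpw m hm hpm => ?_)
    (fun j i => g i j) (fun j i => hg i j) (fun j i => G i j) (fun j i => H i j)
    (fun j i => d i j) (fun j i => hG1 i j) (fun j i => hH i j) (fun j i => hd i j)
    (fun j i p hp hpw m hm hpm => hrel i j p m hp hpw hm hpm) a ha (fun t ht => ?_) (ε / 2)
    (by positivity) (fun i => ?_)
  · rw [hf]
    unfold zz pf
    dsimp only
    rw [Oy_mul hp (hpw.trans (hVW i)) hm, Nat.add_sub_cancel,
      sm_mul hp.one_lt.le (hpw.trans (hVW i)) hm, add_zero]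
  · -- the correlations along cubes
    rw [Metric.tendsto_atTop]
    intro η hη
    obtain ⟨n, hn⟩ := exists_nat_one_div_lt (show 0 < η / 3 by positivity)
    obtain ⟨m, hm⟩ := he (t, n)
    have hKd : Tendsto (fun i : ℕ => (K t ht n : ℝ) / ((i : ℝ) + 1)) atTop (nhds 0) := by
      have h1 := tendsto_one_div_add_atTop_nhds_zero_nat.const_mul (K t ht n : ℝ)
      rw [mul_zero] at h1
      refine h1.congr fun i => ?_
      ring
    have hlogX : Tendsto (fun i : ℕ => 1 / Real.log (X i)) atTop (nhds 0) := by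
      have h1 : Tendsto (fun i : ℕ => Real.log (X i)) atTop atTop :=
        Real.tendsto_log_atTop.comp (tendsto_natCast_atTop_atTop.comp hXt)
      simp only [one_div]
      exact h1.inv_tendsto_atTop
    have hev := ((hKd.eventually_lt_const (show 0 < η / 3 by positivity)).and
      (hlogX.eventually_lt_const (show 0 < η / 3 by positivity))).and
      ((eventually_ge_atTop m).and (eventually_ge_atTop (K t ht n)))
    obtain ⟨I, hI⟩ := eventually_atTop.1 hev
    refine ⟨I, fun i hi => ?_⟩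
    obtain ⟨⟨h1, h2⟩, h3, h4⟩ := hI i hi
    have hlX : 0 < Real.log (X i) := by
      refine Real.log_pos ?_
      have := hX i
      exact_mod_cast (by omega : 1 < X i)
    have hYpos : 1 ≤ Y i := by have := hY1 i; omega
    have hYy : y₀ t ht n ≤ W i := by
      have h6 := hY i m h3
      rw [hthr] at h6
      dsimp only at h6
      have h9 : (if h : ND (e m).1 then y₀ (e m).1 h (e m).2 else 0) = y₀ t ht n := by
        rw [hm]
        dsimp only
        rw [dif_pos ht]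
      rw [h9] at h6
      exact h6
    have hYK : Y i ^ K t ht n ≤ X i :=
      (Nat.pow_le_pow_right hYpos (by omega)).trans (hYX i)
    have h6 : ∀ N : ℕ, Y i ^ K t ht n ≤ N → ‖(1 / (N : ℂ)) * ∑ x ∈ Icc 1 N,
        CU k t (fun x => zz (W i) (Y i) (X i) (c i) x.toNat) x‖ ≤ 1 / ((n : ℝ) + 1) := by
      intro N hN
      exact hy₀ t ht n (W i) (Y i) hYy (hWY i) N (X i) hN hYK (c i) (hc i)
    have h7 := AS_split (X i) (Y i ^ K t ht n)
      (fun x : ℕ => CU k t (fun x => zz (W i) (Y i) (X i) (c i) x.toNat) x)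
      (fun x => norm_CU_le k t _ (fun _ => zz_norm _ _ _ _ (hc i) _) _) (1 / ((n : ℝ) + 1))
      (by positivity) h6 (by have := hX i; omega)
    rw [Real.dist_eq, sub_zero, abs_of_nonneg (AS_nonneg _ _)]
    refine h7.trans_lt ?_
    have h8 : (1 + Real.log ((Y i ^ K t ht n : ℕ) : ℝ)) / Real.log (X i) ≤
        1 / Real.log (X i) + K t ht n / ((i : ℝ) + 1) := by
      rw [add_div]
      have h9 : Real.log ((Y i ^ K t ht n : ℕ) : ℝ) = K t ht n * Real.log (Y i) := by
        push_cast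
        rw [Real.log_pow]
      have h10 : ((i : ℝ) + 1) * Real.log (Y i) ≤ Real.log (X i) := by
        have h11 : Real.log ((Y i : ℝ) ^ (i + 1)) ≤ Real.log (X i) := by
          refine Real.log_le_log ?_ (by exact_mod_cast hYX i)
          positivity
        rw [Real.log_pow] at h11
        push_cast at h11
        exact h11
      rw [h9]
      have h12 : (K t ht n : ℝ) * Real.log (Y i) / Real.log (X i) ≤ K t ht n / ((i : ℝ) + 1) := by
        rw [div_le_div_iff₀ hlX (by positivity)]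
        have h13 : (0 : ℝ) ≤ K t ht n := Nat.cast_nonneg _
        nlinarith
      linarith
    linarith
  · have h1 := hε' i
    have h2 : (cor a (f i) (fun j n => g i j n * G i j n)) = fun n => (1 / 2 : ℂ) *
        cor a (fun n => pf (W i) (Y i) (c i) 0 n - mp (W i) (Y i) (X i) (c i))
          (fun j n => g i j n * G i j n) n := by
      funext n
      rw [hf]
      unfold cor
      ring
    rw [h2, AS_smul]
    have h4 : ‖(1 / 2 : ℂ)‖ = 1 / 2 := by norm_num
    rw [h4]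
    linarith

end Pool.Agent.Run7.h348.EE
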