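import Pool.Agent.Run7.h348.EE.TO

/-!
Several truncated coordinates: telescoping.
-/

set_option autoImplicit false

namespace Pool.Agent.Run7.h348.EE

open Finset Filter Pool.Agent.Q270.EA Pool.Agent.Q270.EB
open Pool.Agent.W208.TL (sm PP)
open Pool.Agent.W883.TL (Om)

/-- a companion -/
def Cp (w : ℕ) (F : ℕ → ℂ) : Prop := ∃ g G : ℕ → ℂ, BM g ∧ QM w G ∧ F = fun n => g n * G n

lemma BM_one : BM (fun _ => 1) := ⟨fun _ => by simp, rfl, fun _ _ _ => by simp⟩

lemma QM_one (w : ℕ) : QM w (fun _ => 1) :=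
  ⟨fun _ => by simp, fun _ => 1, fun _ => 1, fun _ => by simp, fun _ => by simp,
    fun _ _ _ _ _ _ => by simp⟩

lemma Cp_one (w : ℕ) : Cp w (fun _ => 1) := ⟨_, _, BM_one, QM_one w, by simp⟩

lemma Cp_norm {w : ℕ} {F : ℕ → ℂ} (h : Cp w F) (n : ℕ) : ‖F n‖ ≤ 1 := by
  obtain ⟨g, G, hg, hG, rfl⟩ := h
  dsimp only
  rw [norm_mul]
  exact mul_le_one₀ (hg.1 n) (norm_nonneg _) (hG.1 n)

lemma Cp_pf {w W : ℕ} (h : w ≤ W) (y : ℕ) (Φ : ℕ → ℕ → ℂ) (hΦ : ∀ l s, ‖Φ l s‖ ≤ 1) :
    Cp w (pf W y Φ 0) :=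
  ⟨fun _ => 1, pf W y Φ 0, BM_one, QM_mono h (QM_pf W y Φ hΦ), by simp⟩

/-- the sum over the scales `N ≤ X` with weights `1 / N` -/
noncomputable def LS (X : ℕ) (D : ℕ → ℝ) : ℝ := ∑ N ∈ Icc 1 X, (1 / (N : ℝ)) * D N

/-- the harmonic number -/
noncomputable def HH (X : ℕ) : ℝ := ∑ N ∈ Icc 1 X, 1 / (N : ℝ)

lemma HH_nonneg (X : ℕ) : 0 ≤ HH X := sum_nonneg fun _ _ => by positivity

lemma LS_mono {X : ℕ} {D E : ℕ → ℝ} (h : ∀ N, 1 ≤ N → N ≤ X → D N ≤ E N) : LS X D ≤ LS X E :=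
  sum_le_sum fun N hN => mul_le_mul_of_nonneg_left (h N (mem_Icc.1 hN).1 (mem_Icc.1 hN).2)
    (by positivity)

lemma LS_add (X : ℕ) (D E : ℕ → ℝ) : LS X (fun N => D N + E N) = LS X D + LS X E := by
  unfold LS
  rw [← sum_add_distrib]
  exact sum_congr rfl fun _ _ => by ring

lemma LS_const (X : ℕ) (c : ℝ) : LS X (fun _ => c) = c * HH X := by
  unfold LS HH
  rw [mul_sum]
  exact sum_congr rfl fun _ _ => by ring

lemma LS_smul (X : ℕ) (c : ℝ) (D : ℕ → ℝ) : LS X (fun N => c * D N) = c * LS X D := by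
  unfold LS
  rw [mul_sum]
  exact sum_congr rfl fun _ _ => by ring

lemma LS_sum {ι : Type*} (s : Finset ι) (X : ℕ) (D : ι → ℕ → ℝ) :
    LS X (fun N => ∑ i ∈ s, D i N) = ∑ i ∈ s, LS X (D i) := by
  unfold LS
  rw [sum_comm]
  exact sum_congr rfl fun _ _ => by rw [mul_sum]

lemma AS_LS (X : ℕ) (φ : ℕ → ℂ) : LS X (fun N => ‖EN N φ‖) = AS X φ * HH X := by
  unfold AS LS HH EN
  rcases Nat.eq_zero_or_pos X with h0 | h0
  · subst h0; simp
  have : (0 : ℝ) < ∑ N ∈ Icc 1 X, 1 / (N : ℝ) :=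
    sum_pos (fun n hn => by
      have := (mem_Icc.1 hn).1
      have : (0 : ℝ) < n := by exact_mod_cast this
      positivity) ⟨1, mem_Icc.2 ⟨le_rfl, h0⟩⟩
  field_simp

/-- the point at shift `h` -/
def pt (h : ℤ) (n : ℕ) : ℕ := ((n : ℤ) + h).toNat

theorem tele (k : ℕ) (hk : 1 ≤ k) (h : Fin (k + 1) → ℤ) (hh : Function.Injective h) (ε : ℝ)
    (hε : 0 < ε) : ∃ A w : ℕ, 1 ≤ A ∧ 2 ≤ w ∧ ∀ X : ℕ, ∀ S : Finset (Fin (k + 1)),
    ∀ W y : Fin (k + 1) → ℕ, (∀ i ∈ S, w ≤ W i ∧ W i ≤ y i ∧ y i ^ A ≤ X) →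
    ∀ c : Fin (k + 1) → ℕ → ℕ → ℂ, (∀ i l s, ‖c i l s‖ ≤ 1) → ∀ F : Fin (k + 1) → ℕ → ℂ,
      (∀ i ∈ S, F i = pf (W i) (y i) (c i) 0) → (∀ i, i ∉ S → Cp w (F i)) →
      LS X (fun N => ‖EN N (fun n => ∏ i, F i (pt (h i) n)) -
        (∏ i ∈ S, mp (W i) (y i) X (c i)) * EN N (fun n => ∏ i ∈ Sᶜ, F i (pt (h i) n))‖) ≤
          ε * HH X := by
  classical
  obtain ⟨a, haa⟩ : ∃ a : Fin (k + 1) → Fin (k + 1) → ℤ, a = fun i0 =>
    Fin.cons (h i0) (fun j => h (i0.succAbove j)) := ⟨_, rfl⟩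
  have ha : ∀ i0, Function.Injective (a i0) := by
    intro i0
    rw [haa]
    refine Fin.cons_injective_iff.2 ⟨?_, hh.comp Fin.succAbove_right_injective⟩
    rintro ⟨j, hj⟩
    exact Fin.succAbove_ne i0 j (hh hj)
  have ha0 : ∀ i0, a i0 0 = h i0 := fun i0 => by rw [haa]; rfl
  have haj : ∀ i0 (j : Fin k), a i0 j.succ = h (i0.succAbove j) := fun i0 j => by
    rw [haa]
    simp only [Fin.cons_succ]
  choose A y0 hA hy0 H using fun i0 => t_TO k hk (a i0) (ha i0) (ε / (k + 1)) (by positivity)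
  refine ⟨∑ i, A i + 1, ∑ i, y0 i + 2, by omega, by omega, ?_⟩
  intro X S W y hy c hc F hFS hF
  have hAle : ∀ i, A i ≤ ∑ i, A i + 1 := fun i =>
    (single_le_sum (f := A) (fun _ _ => Nat.zero_le _) (mem_univ i)).trans (by omega)
  have hyle : ∀ i, y0 i ≤ ∑ i, y0 i + 2 := fun i =>
    (single_le_sum (f := y0) (fun _ _ => Nat.zero_le _) (mem_univ i)).trans (by omega)
  have hCp : ∀ i, Cp (∑ i, y0 i + 2) (F i) := by
    intro i
    by_cases hi : i ∈ S
    · rw [hFS i hi]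
      exact Cp_pf (hy i hi).1 _ (c i) (hc i)
    · exact hF i hi
  have key : ∀ T : Finset (Fin (k + 1)), T ⊆ S → LS X (fun N => ‖EN N (fun n => ∏ i, F i (pt (h i) n)) -
        (∏ i ∈ T, mp (W i) (y i) X (c i)) * EN N (fun n => ∏ i ∈ Tᶜ, F i (pt (h i) n))‖) ≤
        T.card * (ε / (k + 1) * HH X) := by
    intro T
    induction T using Finset.induction_on with
    | empty =>
      intro _
      simp only [prod_empty, one_mul, compl_empty, sub_self, norm_zero, card_empty, Nat.cast_zero,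
        zero_mul]
      unfold LS
      simp
    | insert i0 T hi0 ih =>
      intro hT
      have hi0S : i0 ∈ S := hT (mem_insert_self _ _)
      have ih' := ih ((subset_insert _ _).trans hT)
      obtain ⟨μ, hμ⟩ : ∃ μ : ℂ, μ = ∏ i ∈ T, mp (W i) (y i) X (c i) := ⟨_, rfl⟩
      obtain ⟨m0, hm0⟩ : ∃ m0 : ℂ, m0 = mp (W i0) (y i0) X (c i0) := ⟨_, rfl⟩
      have hμ1 : ‖μ‖ ≤ 1 := by
        rw [hμ, norm_prod]
        exact prod_le_one (fun _ _ => norm_nonneg _) fun _ _ => mp_norm _ _ _ _ (hc _)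
      obtain ⟨P, hP⟩ : ∃ P : Fin k → ℕ → ℂ, P = fun j => if i0.succAbove j ∈ T then (fun _ => 1)
        else F (i0.succAbove j) := ⟨_, rfl⟩
      have hPC : ∀ j, Cp (∑ i, y0 i + 2) (P j) := by
        intro j
        rw [hP]
        dsimp only
        split_ifs
        · exact Cp_one _
        · exact hCp _
      have hP' : ∀ n : ℕ, ∏ j : Fin k, P j (pt (h (i0.succAbove j)) n) =
          ∏ i ∈ (insert i0 T)ᶜ, F i (pt (h i) n) := by
        intro n
        have e1 : ∏ i ∈ (insert i0 T)ᶜ, F i (pt (h i) n) =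
            ∏ i, if i ∈ insert i0 T then 1 else F i (pt (h i) n) := by
          have e0 : ∀ i, (if i ∈ insert i0 T then (1 : ℂ) else F i (pt (h i) n)) =
              if i ∈ (insert i0 T)ᶜ then F i (pt (h i) n) else 1 := by
            intro i
            by_cases hi : i ∈ insert i0 T
            · rw [if_pos hi, if_neg (by rw [mem_compl]; exact fun hx => hx hi)]
            · rw [if_neg hi, if_pos (mem_compl.2 hi)]
          rw [prod_congr rfl fun i _ => e0 i, prod_ite_mem, univ_inter]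
        rw [e1, Fin.prod_univ_succAbove _ i0, if_pos (mem_insert_self _ _), one_mul]
        refine prod_congr rfl fun j _ => ?_
        rw [hP]
        dsimp only
        have e2 : (i0.succAbove j ∈ insert i0 T) ↔ i0.succAbove j ∈ T := by
          rw [mem_insert]
          exact or_iff_right (Fin.succAbove_ne i0 j)
        simp only [e2]
        split_ifs <;> rfl
      have hTc : ∀ n : ℕ, ∏ i ∈ Tᶜ, F i (pt (h i) n) =
          F i0 (pt (h i0) n) * ∏ i ∈ (insert i0 T)ᶜ, F i (pt (h i) n) := by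
        intro n
        have e1 : Tᶜ = insert i0 (insert i0 T)ᶜ := by
          ext i
          simp only [mem_compl, mem_insert, not_or]
          constructor
          · intro hi
            by_cases h1 : i = i0
            · exact Or.inl h1
            · exact Or.inr ⟨h1, hi⟩
          · rintro (rfl | ⟨_, hi⟩)
            · exact hi0
            · exact hi
        rw [e1, prod_insert]
        rw [mem_compl]
        exact fun hx => hx (mem_insert_self _ _)
      choose g G hg hG hgG using hPC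
      have hmain := H i0 (W i0) (y i0) ((hyle i0).trans (hy i0 hi0S).1) (hy i0 hi0S).2.1 X
        ((Nat.pow_le_pow_right (by have := hy i0 hi0S; omega) (hAle i0)).trans (hy i0 hi0S).2.2)
        (c i0) (hc i0) g G hg (fun j => QM_mono (hyle i0) (hG j))
      have hcor : cor (a i0) (fun n => pf (W i0) (y i0) (c i0) 0 n - mp (W i0) (y i0) X (c i0))
          (fun j n => g j n * G j n) = fun n => (F i0 (pt (h i0) n) - m0) *
            ∏ i ∈ (insert i0 T)ᶜ, F i (pt (h i) n) := by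
        funext n
        unfold cor
        rw [← hP' n, ha0, hFS i0 hi0S, hm0]
        congr 1
        refine prod_congr rfl fun j _ => ?_
        rw [haj, hgG j]
        rfl
      rw [hcor] at hmain
      have hfin : LS X (fun N => ‖EN N (fun n => (F i0 (pt (h i0) n) - m0) *
            ∏ i ∈ (insert i0 T)ᶜ, F i (pt (h i) n))‖) ≤ ε / (k + 1) * HH X := by
        rw [AS_LS]
        exact mul_le_mul_of_nonneg_right hmain (HH_nonneg X)
      rw [card_insert_of_notMem hi0]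
      push_cast
      rw [add_mul, one_mul]
      refine le_trans ?_ (add_le_add ih' hfin)
      rw [← LS_add]
      refine LS_mono fun N _ _ => ?_
      rw [← hμ]
      have e3 : EN N (fun n => ∏ i, F i (pt (h i) n)) - (∏ i ∈ insert i0 T, mp (W i) (y i) X (c i)) *
          EN N (fun n => ∏ i ∈ (insert i0 T)ᶜ, F i (pt (h i) n)) =
          (EN N (fun n => ∏ i, F i (pt (h i) n)) - μ * EN N (fun n => ∏ i ∈ Tᶜ, F i (pt (h i) n))) +
          μ * EN N (fun n => (F i0 (pt (h i0) n) - m0) *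
            ∏ i ∈ (insert i0 T)ᶜ, F i (pt (h i) n)) := by
        rw [prod_insert hi0, ← hμ, ← hm0]
        have e4 : EN N (fun n => (F i0 (pt (h i0) n) - m0) *
            ∏ i ∈ (insert i0 T)ᶜ, F i (pt (h i) n)) = EN N (fun n => ∏ i ∈ Tᶜ, F i (pt (h i) n)) -
            m0 * EN N (fun n => ∏ i ∈ (insert i0 T)ᶜ, F i (pt (h i) n)) := by
          rw [← EN_smul, ← EN_sub]
          congr 1
          funext n
          rw [hTc n]
          ring
        rw [e4]
        ring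
      rw [e3]
      refine (norm_add_le _ _).trans ?_
      rw [norm_mul μ]
      gcongr
      exact mul_le_of_le_one_left (norm_nonneg _) hμ1
  refine (key S (Subset.refl S)).trans ?_
  have h1 : (S.card : ℝ) ≤ k + 1 := by
    have := card_le_univ S
    rw [Fintype.card_fin] at this
    exact_mod_cast this
  have h2 := HH_nonneg X
  calc (S.card : ℝ) * (ε / (k + 1) * HH X) ≤ (k + 1) * (ε / (k + 1) * HH X) := by gcongr
    _ = ε * HH X := by field_simp

end Pool.Agent.Run7.h348.EE
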