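import Pool.Agent.Run7.h348.EE.Soft
import Pool.Agent.Run7.h348.EE.Avg
import Pool.Agent.TH575.OM.FinO
import Pool.Agent.TH575.OM.FinQ

/-!
Two exact coordinates, and one exact coordinate with one arbitrary multiplicative function, in the
average over the scales.
-/

set_option autoImplicit false

namespace Pool.Agent.Run7.h348.EE

open Finset Filter Pool.Agent.Q270.EA Pool.Agent.Q270.EB
open Pool.Agent.TH575.OM (DC WG MV nit)
open ArithmeticFunction (cardFactors)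

lemma EN_div (N : ℕ) (φ : ℕ → ℂ) : (∑ n ∈ Icc 1 N, φ n) / (N : ℂ) = EN N φ := by
  unfold EN
  ring

lemma LS_shift (s : ℕ) (ε : ℝ) (hε : 0 < ε) : ∃ X0 : ℕ, ∀ X : ℕ, X0 ≤ X → ∀ φ : ℕ → ℂ,
    (∀ n, ‖φ n‖ ≤ 1) → LS X (fun N => ‖EN N (fun n => φ (n + s)) - EN N φ‖) ≤ ε * Real.log X := by
  obtain ⟨Z, hZ⟩ := exists_nat_ge (2 * (s : ℝ) / (ε / 4))
  obtain ⟨X1, hX1⟩ := exists_nat_ge (Real.exp (4 * (1 + Real.log ((Z + 1 : ℕ) : ℝ)) / ε))
  refine ⟨max 3 X1, fun X hX φ hφ => ?_⟩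
  have hX3 : 3 ≤ X := (le_max_left _ _).trans hX
  have hX0 : (0 : ℝ) < X := by exact_mod_cast (by omega : 0 < X)
  have h1 := LS_split X (Z + 1) (fun N => ‖EN N (fun n => φ (n + s)) - EN N φ‖) 2 (ε / 4)
    (by norm_num) (by positivity) (fun N => by
      have a1 := norm_sub_le (EN N (fun n => φ (n + s))) (EN N φ)
      have a2 := EN_norm N _ hφ
      have a3 := EN_norm N (fun n => φ (n + s)) (fun n => hφ _)
      linarith) (fun N hN => by
      refine EN_shift N φ hφ s (ε / 4) ?_ (by omega)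
      have e1 : 2 * (s : ℝ) / (ε / 4) ≤ N := hZ.trans (by exact_mod_cast (by omega : Z ≤ N))
      rw [div_le_iff₀ (by positivity)] at e1
      linarith)
  have h2 : 4 * (1 + Real.log ((Z + 1 : ℕ) : ℝ)) / ε ≤ Real.log X :=
    (Real.le_log_iff_exp_le hX0).2 (hX1.trans (by exact_mod_cast (le_max_right _ _).trans hX))
  rw [div_le_iff₀ hε] at h2
  have h3 := mul_le_mul_of_nonneg_left (HH_le X hX3) (show 0 ≤ ε / 4 by positivity)
  linarith

/-- two exact coordinates, one of them unshifted -/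
lemma pairE0 (h : ℕ) (hh : 1 ≤ h) (ε : ℝ) (hε : 0 < ε) : ∃ X0 : ℕ, ∀ X : ℕ, X0 ≤ X →
    ∀ a b : ℕ → ℂ, (∀ l, ‖a l‖ ≤ 1) → (∀ l, ‖b l‖ ≤ 1) →
      LS X (fun N => ‖EN N (fun n => a (cardFactors n) * b (cardFactors (n + h))) -
        EN N (fun n => a (cardFactors n)) * EN N (fun n => b (cardFactors n))‖) ≤
        ε * Real.log X := by
  obtain ⟨C, hC⟩ := Pool.Agent.TH575.OM.mainC h hh (ε / 3) (by positivity)
  have hDC : ∀ (a b : ℕ → ℂ) (N : ℕ), DC a b h N =
      EN N (fun n => a (cardFactors n) * b (cardFactors (n + h))) -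
        EN N (fun n => a (cardFactors n)) * EN N (fun n => b (cardFactors n)) := by
    intro a b N
    unfold DC
    rw [EN_div, EN_div, EN_div]
  obtain ⟨X0, hX0⟩ := conv {D : ℕ → ℝ | ∃ a b : ℕ → ℂ, (∀ l, ‖a l‖ ≤ 1) ∧ (∀ l, ‖b l‖ ≤ 1) ∧
      D = fun N => ‖DC a b h N‖} 2 (by norm_num) (by
      rintro D ⟨a, b, ha, hb, rfl⟩ N
      refine ⟨norm_nonneg _, ?_⟩
      dsimp only
      rw [hDC]
      refine (norm_sub_le _ _).trans ?_
      rw [norm_mul]
      have e1 := EN_norm N (fun n => a (cardFactors n) * b (cardFactors (n + h))) (fun n => by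
        rw [norm_mul]
        exact mul_le_one₀ (ha _) (norm_nonneg _) (hb _))
      have e2 := EN_norm N (fun n => a (cardFactors n)) (fun n => ha _)
      have e3 := EN_norm N (fun n => b (cardFactors n)) (fun n => hb _)
      have e4 := mul_le_one₀ e2 (norm_nonneg _) e3
      linarith) (ε / 3) (by positivity) C (fun J => by
      obtain ⟨y0, hy0⟩ := hC J
      refine ⟨y0, ?_⟩
      rintro y hy D ⟨a, b, ha, hb, rfl⟩
      exact hy0 y hy a b ha hb)
  refine ⟨X0, fun X hX a b ha hb => ?_⟩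
  have h1 := hX0 X hX _ ⟨a, b, ha, hb, rfl⟩
  unfold LS
  simp only [hDC] at h1
  refine h1.trans (le_of_eq ?_)
  ring

/-- two exact coordinates -/
theorem pairE (h0 h1 : ℕ) (hne : h0 ≠ h1) (ε : ℝ) (hε : 0 < ε) : ∃ X0 : ℕ, ∀ X : ℕ, X0 ≤ X →
    ∀ a b : ℕ → ℂ, (∀ l, ‖a l‖ ≤ 1) → (∀ l, ‖b l‖ ≤ 1) →
      LS X (fun N => ‖EN N (fun n => a (cardFactors (n + h0)) * b (cardFactors (n + h1))) -
        EN N (fun n => a (cardFactors n)) * EN N (fun n => b (cardFactors n))‖) ≤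
        ε * Real.log X := by
  wlog hlt : h0 < h1 generalizing h0 h1
  · obtain ⟨X0, hX0⟩ := this h1 h0 hne.symm (by omega)
    refine ⟨X0, fun X hX a b ha hb => ?_⟩
    refine le_trans (le_of_eq ?_) (hX0 X hX b a hb ha)
    congr 1
    funext N
    congr 2
    · congr 1
      funext n
      ring
    · ring
  obtain ⟨X1, hX1⟩ := pairE0 (h1 - h0) (by omega) (ε / 2) (by positivity)
  obtain ⟨X2, hX2⟩ := LS_shift h0 (ε / 2) (by positivity)
  refine ⟨max X1 X2, fun X hX a b ha hb => ?_⟩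
  have e1 := hX1 X ((le_max_left _ _).trans hX) a b ha hb
  have e2 := hX2 X ((le_max_right _ _).trans hX)
    (fun n => a (cardFactors n) * b (cardFactors (n + (h1 - h0)))) (fun n => by
      rw [norm_mul]
      exact mul_le_one₀ (ha _) (norm_nonneg _) (hb _))
  have e3 : ∀ n : ℕ, n + h0 + (h1 - h0) = n + h1 := fun n => by omega
  simp only [e3] at e2
  have e4 := add_le_add e2 e1
  rw [← LS_add] at e4
  refine (LS_mono fun N _ _ => ?_).trans (e4.trans (le_of_eq (by ring)))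
  have := norm_add_le (EN N (fun n => a (cardFactors (n + h0)) * b (cardFactors (n + h1))) -
    EN N (fun n => a (cardFactors n) * b (cardFactors (n + (h1 - h0)))))
    (EN N (fun n => a (cardFactors n) * b (cardFactors (n + (h1 - h0)))) -
        EN N (fun n => a (cardFactors n)) * EN N (fun n => b (cardFactors n)))
  rwa [sub_add_sub_cancel] at this

/-- one exact coordinate and one arbitrary multiplicative function -/
theorem pairM (k l : ℕ) (hkl : k ≠ l) (ε : ℝ) (hε : 0 < ε) : ∃ X0 : ℕ, ∀ X : ℕ, X0 ≤ X →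
    ∀ a : ℕ → ℂ, (∀ l, ‖a l‖ ≤ 1) → ∀ g : ℕ → ℂ, BM g →
      LS X (fun N => ‖EN N (fun n => a (cardFactors (n + k)) * g (n + l)) -
        EN N (fun n => a (cardFactors n)) * EN N g‖) ≤ ε * Real.log X := by
  obtain ⟨C, hC⟩ := Pool.Agent.TH575.OM.mainW k l hkl 1 le_rfl (ε / 6) (by positivity)
  have hWG : ∀ (a g : ℕ → ℂ) (N : ℕ), WG (fun _ => 1) 0 k l (fun u => a u - MV a N) g N =
      EN N (fun n => a (cardFactors (n + k)) * g (n + l)) -
        EN N (fun n => a (cardFactors n)) * EN N (fun n => g (n + l)) := by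
    intro a g N
    have e1 : MV a N = EN N (fun n => a (cardFactors n)) := by
      unfold MV
      rw [EN_div]
    rw [← EN_smul, ← EN_sub]
    unfold WG
    rw [EN_div, e1]
    congr 1
    funext n
    unfold nit
    simp only [zero_mul, Complex.ofReal_zero, Complex.exp_zero]
    ring
  obtain ⟨X1, hX1⟩ := conv {D : ℕ → ℝ | ∃ a g : ℕ → ℂ, (∀ l, ‖a l‖ ≤ 1) ∧ BM g ∧
      D = fun N => ‖WG (fun _ => 1) 0 k l (fun u => a u - MV a N) g N‖} 2 (by norm_num) (by
      rintro D ⟨a, g, ha, hg, rfl⟩ N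
      refine ⟨norm_nonneg _, ?_⟩
      dsimp only
      rw [hWG]
      refine (norm_sub_le _ _).trans ?_
      rw [norm_mul]
      have e1 := EN_norm N (fun n => a (cardFactors (n + k)) * g (n + l)) (fun n => by
        rw [norm_mul]
        exact mul_le_one₀ (ha _) (norm_nonneg _) (hg.1 _))
      have e2 := EN_norm N (fun n => a (cardFactors n)) (fun n => ha _)
      have e3 := EN_norm N (fun n => g (n + l)) (fun n => hg.1 _)
      have e4 := mul_le_one₀ e2 (norm_nonneg _) e3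
      linarith) (ε / 6) (by positivity) C (fun J => by
      obtain ⟨δ, hδ, y0, hy0⟩ := hC J
      refine ⟨y0, ?_⟩
      rintro y hy D ⟨a, g, ha, hg, rfl⟩
      exact (hy0 y hy 0 (by rw [abs_zero]; positivity) (fun _ => 1) (fun _ => by simp)
        (fun _ => rfl) g hg.1 (fun m n _ _ hmn => hg.2.2 m n hmn)).1 a ha)
  obtain ⟨X2, hX2⟩ := LS_shift l (ε / 2) (by positivity)
  refine ⟨max X1 X2, fun X hX a ha g hg => ?_⟩
  have h1 := hX1 X ((le_max_left _ _).trans hX) _ ⟨a, g, ha, hg, rfl⟩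
  simp only [hWG] at h1
  have h2 := hX2 X ((le_max_right _ _).trans hX) g hg.1
  have h3 : LS X (fun N => ‖EN N (fun n => a (cardFactors (n + k)) * g (n + l)) -
        EN N (fun n => a (cardFactors n)) * EN N (fun n => g (n + l))‖) ≤ ε / 2 * Real.log X := by
    unfold LS
    refine h1.trans (le_of_eq (by ring))
  have e4 := add_le_add h3 h2
  rw [← LS_add] at e4
  refine (LS_mono fun N _ _ => ?_).trans (e4.trans (le_of_eq (by ring)))
  have e5 : EN N (fun n => a (cardFactors (n + k)) * g (n + l)) -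
        EN N (fun n => a (cardFactors n)) * EN N g =
      (EN N (fun n => a (cardFactors (n + k)) * g (n + l)) -
        EN N (fun n => a (cardFactors n)) * EN N (fun n => g (n + l))) +
      EN N (fun n => a (cardFactors n)) * (EN N (fun n => g (n + l)) - EN N g) := by ring
  rw [e5]
  refine (norm_add_le _ _).trans (add_le_add le_rfl ?_)
  rw [norm_mul]
  exact mul_le_of_le_one_left (norm_nonneg _) (EN_norm N _ fun n => ha _)

/-- the second nonsoft function: a function of `Ω`, or a multiplicative function -/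
def Snd (F : ℕ → ℂ) : Prop :=
  (∃ b : ℕ → ℂ, (∀ l, ‖b l‖ ≤ 1) ∧ F = fun n => b (cardFactors n)) ∨ BM F

lemma Om_rough (w n : ℕ) : cardFactors n = Oy w n + cardFactors (n / Pool.Agent.W208.TL.sm 0 w n) := by
  rcases Nat.eq_zero_or_pos n with h0 | h0
  · subst h0
    have e : Oy w 0 = 0 := by
      unfold Oy
      rw [Pool.Agent.W883.TL.sm_zero]
      simp [Pool.Agent.W883.TL.Om]
    rw [e, Nat.zero_div, ArithmeticFunction.cardFactors_zero]
  · have h1 := Pool.Agent.W883.TL.sm_dvd h0.ne' 0 w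
    have h2 : n / Pool.Agent.W208.TL.sm 0 w n ≠ 0 :=
      (Nat.div_pos (Nat.le_of_dvd h0 h1) (Nat.pos_of_ne_zero (Pool.Agent.W883.TL.sm_ne 0 w n))).ne'
    have h3 : n = Pool.Agent.W208.TL.sm 0 w n * (n / Pool.Agent.W208.TL.sm 0 w n) :=
      (Nat.mul_div_cancel' h1).symm
    conv_lhs => rw [h3]
    rw [ArithmeticFunction.cardFactors_mul (Pool.Agent.W883.TL.sm_ne 0 w n) h2]
    rfl

lemma Cp_Om (w : ℕ) (b : ℕ → ℂ) (hb : ∀ l, ‖b l‖ ≤ 1) : Cp w (fun n => b (cardFactors n)) :=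
  ⟨fun _ => 1, fun n => b (cardFactors n), BM_one, by
    have h := QM_rough w (fun l s => b (l + cardFactors s)) (fun _ _ => hb _)
    simp only [← Om_rough] at h
    exact h, by simp⟩

lemma Cp_BM (w : ℕ) {g : ℕ → ℂ} (hg : BM g) : Cp w g :=
  ⟨g, fun _ => 1, hg, QM_one w, by simp⟩

theorem two (k : ℕ) (h : Fin (k + 1) → ℕ) (hh : Function.Injective h) (ε : ℝ)
    (hε : 0 < ε) : ∃ (A w : ℕ) (δ : ℝ) (X0 : ℕ), 1 ≤ A ∧ 2 ≤ w ∧ 0 < δ ∧ ∀ X : ℕ, X0 ≤ X →
    ∀ i0 i1 : Fin (k + 1), i0 ≠ i1 → ∀ F : Fin (k + 1) → ℕ → ℂ,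
      (∀ i, i ≠ i0 → i ≠ i1 → Soft A w δ X (F i)) →
      (∃ b : ℕ → ℂ, (∀ l, ‖b l‖ ≤ 1) ∧ F i0 = fun n => b (cardFactors n)) → Snd (F i1) →
      LS X (fun N => ‖EN N (fun n => ∏ i, F i (n + h i)) - ∏ i, EN N (F i)‖) ≤ ε * Real.log X := by
  classical
  rcases Nat.eq_zero_or_pos k with hk | hk
  · subst hk
    exact ⟨1, 2, 1, 0, le_rfl, le_rfl, zero_lt_one, fun X _ i0 i1 hne =>
      absurd (Fin.ext (by omega)) hne⟩
  obtain ⟨A, w, δ, X1, hA, hw, hδ, H⟩ := soft k hk h hh (ε / 2) (by positivity)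
  have hp1 : ∀ p : Fin (k + 1) × Fin (k + 1), ∃ X0 : ℕ, p.1 ≠ p.2 → ∀ X : ℕ, X0 ≤ X →
      ∀ F : Fin (k + 1) → ℕ → ℂ, (∃ b : ℕ → ℂ, (∀ l, ‖b l‖ ≤ 1) ∧ F p.1 = fun n => b (cardFactors n)) →
      Snd (F p.2) → LS X (fun N => ‖EN N (fun n => F p.1 (n + h p.1) * F p.2 (n + h p.2)) -
        EN N (F p.1) * EN N (F p.2)‖) ≤ ε / 2 * Real.log X := by
    rintro ⟨i0, i1⟩
    by_cases hne : i0 = i1
    · exact ⟨0, fun h => absurd hne h⟩
    · have hne' : h i0 ≠ h i1 := fun hx => hne (hh hx)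
      obtain ⟨Y1, hY1⟩ := pairE (h i0) (h i1) hne' (ε / 2) (by positivity)
      obtain ⟨Y2, hY2⟩ := pairM (h i0) (h i1) hne' (ε / 2) (by positivity)
      refine ⟨max Y1 Y2, fun _ X hX F hF0 hF1 => ?_⟩
      obtain ⟨a, ha, haF⟩ := hF0
      dsimp only at haF hF1 ⊢
      rw [haF]
      rcases hF1 with ⟨b, hb, hbF⟩ | hg
      · rw [hbF]
        exact hY1 X ((le_max_left _ _).trans hX) a b ha hb
      · exact hY2 X ((le_max_right _ _).trans hX) a ha _ hg
  choose X2 hX2 using hp1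
  refine ⟨A, w, δ, X1 + ∑ p, X2 p, hA, hw, hδ, ?_⟩
  intro X hX i0 i1 hne F hF hF0 hF1
  have hX2' : X2 (i0, i1) ≤ X := by
    have := single_le_sum (f := X2) (fun _ _ => Nat.zero_le _) (mem_univ (i0, i1))
    omega
  have g1 := hX2 (i0, i1) hne X hX2' F hF0 hF1
  dsimp only at g1
  obtain ⟨S, hS⟩ : ∃ S : Finset (Fin (k + 1)), S = ({i0, i1} : Finset (Fin (k + 1)))ᶜ := ⟨_, rfl⟩
  have hSc : Sᶜ = {i0, i1} := by rw [hS, compl_compl]
  have hSm : ∀ i, i ∈ S ↔ i ≠ i0 ∧ i ≠ i1 := by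
    intro i
    rw [hS, mem_compl, mem_insert, mem_singleton, not_or]
  have g2 := H X (by omega) S F (fun i hi => hF i ((hSm i).1 hi).1 ((hSm i).1 hi).2) (fun i hi => by
    rw [hSm] at hi
    have : i = i0 ∨ i = i1 := by
      by_contra hcon
      push Not at hcon
      exact hi hcon
    rcases this with rfl | rfl
    · obtain ⟨b, hb, hbF⟩ := hF0
      rw [hbF]
      exact Cp_Om w b hb
    · rcases hF1 with ⟨b, hb, hbF⟩ | hg
      · rw [hbF]
        exact Cp_Om w b hb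
      · exact Cp_BM w hg)
  have e4 := add_le_add g2 g1
  rw [← LS_add] at e4
  refine (LS_mono fun N _ _ => ?_).trans (e4.trans (le_of_eq (by ring)))
  have hFb : ∀ i ∈ S, ∀ n, ‖F i n‖ ≤ 1 := by
    intro i hi n
    obtain ⟨W, z, -, -, -, B, hB1, -, hB⟩ := hF i ((hSm i).1 hi).1 ((hSm i).1 hi).2
    rw [hB]
    exact hB1 _ _ _
  have e5 : ∏ i, EN N (F i) = (∏ i ∈ S, EN N (F i)) * (EN N (F i0) * EN N (F i1)) := by
    rw [← prod_mul_prod_compl S, hSc, prod_pair hne]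
  have e6 : EN N (fun n => ∏ i ∈ Sᶜ, F i (n + h i)) =
      EN N (fun n => F i0 (n + h i0) * F i1 (n + h i1)) := by
    congr 1
    funext n
    rw [hSc, prod_pair hne]
  rw [e6, e5]
  obtain ⟨P, hP⟩ : ∃ P : ℂ, P = ∏ i ∈ S, EN N (F i) := ⟨_, rfl⟩
  have hP1 : ‖P‖ ≤ 1 := by
    rw [hP, norm_prod]
    exact prod_le_one (fun _ _ => norm_nonneg _) fun i hi => EN_norm N _ (hFb i hi)
  rw [← hP]
  have e7 : EN N (fun n => ∏ i, F i (n + h i)) - P * (EN N (F i0) * EN N (F i1)) =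
      (EN N (fun n => ∏ i, F i (n + h i)) - P * EN N (fun n => F i0 (n + h i0) * F i1 (n + h i1))) +
      P * (EN N (fun n => F i0 (n + h i0) * F i1 (n + h i1)) - EN N (F i0) * EN N (F i1)) := by ring
  rw [e7]
  refine (norm_add_le _ _).trans (add_le_add le_rfl ?_)
  rw [norm_mul]
  exact mul_le_of_le_one_left (norm_nonneg _) hP1

end Pool.Agent.Run7.h348.EE
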